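import Pool.Agent.K9h37.TS.Defs

/-!
Short names for the properties of a homology theory.
-/

set_option autoImplicit false

open CategoryTheory CategoryTheory.Limits AlgebraicGeometry

namespace Pool.Agent.K9h37.TS.Homology

variable {k : Type} [Field k] {E : Type} [Field E] {Γ : Type} [Group Γ] (T : Homology k E Γ)

theorem normal : T.geo.Normal := T.galoisAction.normal

theorem finite (i : ℕ) (X : Sch k) (hX : IsVariety X) : FiniteDimensional E (T.H i X) :=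
  T.galoisAction.finite i X hX

theorem W_stable (i : ℕ) (X : Sch k) (hX : IsVariety X) (g : Γ) : ∀ v ∈ T.W i X,
    T.ρ i X g v ∈ T.W i X :=
  T.galoisAction.W_stable i X hX g

theorem weights (i : ℕ) (X : Sch k) (hX : IsVariety X) (v : T.H i X) (n : ℕ)
    (h : ∀ g ∈ T.geo, T.ρ i X g v = v) (h' : ((T.ρ i X T.frob - 1) ^ n) v = 0) : v ∈ T.W i X :=
  T.galoisAction.weights i X hX v ⟨h, n, h'⟩

theorem semisimple (i : ℕ) (X : Sch k) (hX : IsVariety X) (N : Submodule E (T.H i X))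
    (hN : N ≤ T.W i X) (h : ∀ g ∈ T.geo, ∀ v ∈ N, T.ρ i X g v ∈ N) :
    ∃ C ≤ T.W i X, (∀ g ∈ T.geo, ∀ v ∈ C, T.ρ i X g v ∈ C) ∧ N ⊓ C = ⊥ ∧ N ⊔ C = T.W i X :=
  T.galoisAction.semisimple i X hX N hN h

theorem continuity (i : ℕ) (X : Sch k) (hX : IsVariety X) (v : T.H i X)
    (h : ∀ g ∈ T.geo, T.ρ i X g v = v) (h' : T.ρ i X T.frob v = v) (g : Γ) : T.ρ i X g v = v :=
  T.galoisAction.continuity i X hX v h h' g

theorem push_ρ {X Y : Sch k} (f : X ⟶ Y) (i : ℕ) (hX : IsVariety X) (hY : IsVariety Y)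
    (hf : IsProper f.left) (g : Γ) (v : T.H i X) :
    T.push f i (T.ρ i X g v) = T.ρ i Y g (T.push f i v) :=
  T.functorial.push_ρ f i hX hY hf g v

theorem push_W {X Y : Sch k} (f : X ⟶ Y) (i : ℕ) (hX : IsVariety X) (hY : IsVariety Y)
    (hf : IsProper f.left) : ∀ v ∈ T.W i X, T.push f i v ∈ T.W i Y :=
  T.functorial.push_W f i hX hY hf

theorem res_ρ {U X : Sch k} (j : U ⟶ X) (i : ℕ) (hU : IsVariety U) (hX : IsVariety X)
    (hj : IsOpenImmersion j.left) (g : Γ) (v : T.H i X) :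
    T.res j i (T.ρ i X g v) = T.ρ i U g (T.res j i v) :=
  T.functorial.res_ρ j i hU hX hj g v

theorem res_W {U X : Sch k} (j : U ⟶ X) (i : ℕ) (hU : IsVariety U) (hX : IsVariety X)
    (hj : IsOpenImmersion j.left) : ∀ v ∈ T.W i X, T.res j i v ∈ T.W i U :=
  T.functorial.res_W j i hU hX hj

theorem localization {Z U X : Sch k} (ι : Z ⟶ X) (j : U ⟶ X) (i : ℕ) (hZ : IsVariety Z)
    (hU : IsVariety U) (hX : IsVariety X) (hι : IsClosedImmersion ι.left)
    (hj : IsOpenImmersion j.left) (hr : Set.range ι.left = (Set.range j.left)ᶜ) :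
    (∀ v ∈ T.W i U, ∃ w ∈ T.W i X, T.res j i w = v) ∧
    ∀ w ∈ T.W i X, T.res j i w = 0 ↔ ∃ z ∈ T.W i Z, T.push ι i z = w :=
  T.localizationSequence ι j i hZ hU hX ⟨hι, hj, hr⟩

theorem descent {X X₀ X₁ : Sch k} (π : X₀ ⟶ X) (a b : X₁ ⟶ X₀)
    (h : a.left ≫ π.left = b.left ≫ π.left) (i : ℕ) (hX : IsVariety X) (hX₀ : IsVariety X₀)
    (hX₁ : IsVariety X₁) (hπ : IsProper π.left) (hs : Surjective π.left)
    (hp : IsProper (pullback.lift a.left b.left h))
    (hs' : Surjective (pullback.lift a.left b.left h)) :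
    (∀ v ∈ T.W i X, ∃ w ∈ T.W i X₀, T.push π i w = v) ∧
    ∀ w ∈ T.W i X₀, T.push π i w = 0 ↔ ∃ z ∈ T.W i X₁, T.push a i z - T.push b i z = w :=
  T.properDescent π a b i hX hX₀ hX₁ ⟨hπ, hs, h, hp, hs'⟩

theorem cl_inv (i : ℕ) (X : Sch k) (hX : IsVariety X) (x : X.left) (hx : PtDim i X x) (g : Γ) :
    T.ρ i X g (T.cl i X x) = T.cl i X x :=
  T.cycleClasses.cl_inv i X hX x hx g

theorem cl_push {X Y : Sch k} (f : X ⟶ Y) (i : ℕ) (hX : IsVariety X) (hY : IsVariety Y)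
    (hf : IsProper f.left) (x : X.left) (hx : PtDim i X x) :
    (PtDim i Y (f.left x) ∧ ∃ n : ℕ, 0 < n ∧
        T.push f i (T.cl i X x) = n • T.cl i Y (f.left x)) ∨
      (¬ PtDim i Y (f.left x) ∧ T.push f i (T.cl i X x) = 0) :=
  T.cycleClasses.cl_push f i hX hY hf x hx

include T in
theorem dim_open {U X : Sch k} (j : U ⟶ X) (hU : IsVariety U) (hX : IsVariety X)
    (hj : IsOpenImmersion j.left) (i : ℕ) (u : U.left) : PtDim i U u ↔ PtDim i X (j.left u) :=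
  T.cycleClasses.dim_open j hU hX hj i u

theorem cl_res {U X : Sch k} (j : U ⟶ X) (i : ℕ) (hU : IsVariety U) (hX : IsVariety X)
    (hj : IsOpenImmersion j.left) (u : U.left) (hu : PtDim i U u) :
    T.res j i (T.cl i X (j.left u)) = T.cl i U u :=
  T.cycleClasses.cl_res j i hU hX hj u hu

theorem cl_res_zero {U X : Sch k} (j : U ⟶ X) (i : ℕ) (hU : IsVariety U) (hX : IsVariety X)
    (hj : IsOpenImmersion j.left) (x : X.left) (hx : PtDim i X x) (h : x ∉ Set.range j.left) :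
    T.res j i (T.cl i X x) = 0 :=
  T.cycleClasses.cl_res_zero j i hU hX hj x hx (fun u hu => h ⟨u, hu⟩)

theorem multisections {X X₀ : Sch k} (π : X₀ ⟶ X) (i : ℕ) (hX : IsVariety X)
    (hX₀ : IsVariety X₀) (hπ : IsProper π.left) (hs : Surjective π.left) :
    ∃ n : ℕ, 0 < n ∧ ∀ x, PtDim i X x → ∃ b ∈ T.B i X₀, T.push π i b = n • T.cl i X x :=
  T.cycleClasses.multisections π i hX hX₀ hπ hs

theorem small (i : ℕ) (Z : Sch k) (hZ : IsVariety Z) (h : ∀ z, PtDimLe i Z z) :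
    ∃ n : ℕ, 0 < n ∧ ∀ g, (T.ρ i Z g) ^ n = 1 := by
  obtain ⟨n, hn, h⟩ := (T.cycleClasses.small i Z hZ h).1
  refine ⟨n, hn, fun g => ?_⟩
  rw [← map_pow]
  exact LinearMap.ext (fun v => h g v)

theorem small_span (i : ℕ) (Z : Sch k) (hZ : IsVariety Z) (h : ∀ z, PtDimLe i Z z) (v : T.H i Z)
    (hv : ∀ g, T.ρ i Z g v = v) : v ∈ Submodule.span E (T.B i Z : Set (T.H i Z)) :=
  (T.cycleClasses.small i Z hZ h).2 v hv

theorem pairing_inv (d i : ℕ) (X : Sch k) (hX : IsSmoothProjective d X) (hi : i ≤ d) (g : Γ)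
    (v : T.H i X) (w : T.H (d - i) X) :
    T.pairing d i X (T.ρ i X g v) (T.ρ (d - i) X g w) = T.pairing d i X v w :=
  T.smoothProjective.pairing_inv d i X hX hi g v w

theorem pairing_nondeg (d i : ℕ) (X : Sch k) (hX : IsSmoothProjective d X) (hi : i ≤ d)
    (v : T.H i X) (h : ∀ w, T.pairing d i X v w = 0) : v = 0 :=
  T.smoothProjective.pairing_nondeg d i X hX hi v h

theorem pairing_int (d i : ℕ) (X : Sch k) (hX : IsSmoothProjective d X) (hi : i ≤ d)
    (x y : X.left) (hx : PtDim i X x) (hy : PtDim (d - i) X y) :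
    ∃ m : ℤ, T.pairing d i X (T.cl i X x) (T.cl (d - i) X y) = m :=
  T.smoothProjective.pairing_int d i X hX hi x y hx hy

theorem pure (d i : ℕ) (X : Sch k) (hX : IsSmoothProjective d X) : T.W i X = ⊤ :=
  T.smoothProjective.pure d i X hX

theorem zero_above (d i : ℕ) (X : Sch k) (hX : IsSmoothProjective d X) (hi : d < i) :
    Subsingleton (T.H i X) :=
  T.smoothProjective.zero_above d i X hX hi

theorem lefschetz (d i : ℕ) (X : Sch k) (hX : IsSmoothProjective d X) (hi : 2 * i ≤ d) :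
    ∃ L : T.H (d - i) X →ₗ[E] T.H i X,
      Function.Surjective L ∧ (∀ g v, L (T.ρ (d - i) X g v) = T.ρ i X g (L v)) ∧
      ∀ x, PtDim (d - i) X x → L (T.cl (d - i) X x) ∈ T.B i X :=
  T.smoothProjective.lefschetz d i X hX hi

theorem ordL_eq (i : ℕ) (X : Sch k) (hX : IsVariety X) (G : Submodule E (T.H i X))
    (hG : ∀ v, v ∈ G ↔ (∀ g ∈ T.geo, T.ρ i X g v = v) ∧
      ∃ n : ℕ, ((T.ρ i X T.frob - 1) ^ n) v = 0) :
    T.ordL i X = - (Module.finrank E G : ℤ) :=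
  T.orderFormula i X hX G hG

end Pool.Agent.K9h37.TS.Homology
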