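import Pool.Agent.K9h37.TS.Main

/-!
Closed and open subschemes of varieties.
-/

set_option autoImplicit false

open CategoryTheory CategoryTheory.Limits AlgebraicGeometry
open scoped TensorProduct

namespace Pool.Agent.K9h37.TS

variable {k : Type} [Field k]

lemma isVariety_of_proper {X : Sch k} (h : IsProper X.hom) : IsVariety X :=
  ⟨inferInstance, inferInstance, inferInstance⟩

lemma isLN {X : Sch k} (hX : IsVariety X) : IsLocallyNoetherian X.left := by
  have := hX.locallyOfFiniteType
  exact LocallyOfFiniteType.isLocallyNoetherian X.hom

/-- the reduced closed subscheme -/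
noncomputable def closedSub (X : Sch k) (C : TopologicalSpace.Closeds X.left) : Sch k :=
  Over.mk ((Scheme.IdealSheafData.vanishingIdeal C).subschemeι ≫ X.hom)

noncomputable def closedInc (X : Sch k) (C : TopologicalSpace.Closeds X.left) : closedSub X C ⟶ X :=
  Over.homMk (Scheme.IdealSheafData.vanishingIdeal C).subschemeι rfl

instance (X : Sch k) (C : TopologicalSpace.Closeds X.left) : IsClosedImmersion (closedInc X C).left :=
  inferInstanceAs (IsClosedImmersion (Scheme.IdealSheafData.vanishingIdeal C).subschemeι)

lemma range_closedInc (X : Sch k) (C : TopologicalSpace.Closeds X.left) :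
    Set.range (closedInc X C).left = C := by
  change Set.range (Scheme.IdealSheafData.vanishingIdeal C).subschemeι = C
  rw [Scheme.IdealSheafData.range_subschemeι, Scheme.IdealSheafData.coe_support_vanishingIdeal]

lemma isVariety_closedSub {X : Sch k} (hX : IsVariety X) (C : TopologicalSpace.Closeds X.left) :
    IsVariety (closedSub X C) := by
  have := hX.separated
  have := hX.locallyOfFiniteType
  have := hX.quasiCompact
  refine ⟨?_, ?_, ?_⟩
  · change IsSeparated ((Scheme.IdealSheafData.vanishingIdeal C).subschemeι ≫ X.hom)
    infer_instance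
  · change LocallyOfFiniteType ((Scheme.IdealSheafData.vanishingIdeal C).subschemeι ≫ X.hom)
    infer_instance
  · change QuasiCompact ((Scheme.IdealSheafData.vanishingIdeal C).subschemeι ≫ X.hom)
    infer_instance

lemma isProper_closedSub {X : Sch k} (hX : IsProper X.hom) (C : TopologicalSpace.Closeds X.left) :
    IsProper (closedSub X C).hom := by
  change IsProper ((Scheme.IdealSheafData.vanishingIdeal C).subschemeι ≫ X.hom)
  infer_instance

/-- the open subscheme -/
noncomputable def openSub (X : Sch k) (U : X.left.Opens) : Sch k := Over.mk (U.ι ≫ X.hom)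

noncomputable def openInc (X : Sch k) (U : X.left.Opens) : openSub X U ⟶ X := Over.homMk U.ι rfl

instance (X : Sch k) (U : X.left.Opens) : IsOpenImmersion (openInc X U).left :=
  inferInstanceAs (IsOpenImmersion U.ι)

lemma range_openInc (X : Sch k) (U : X.left.Opens) : Set.range (openInc X U).left = U := by
  change Set.range U.ι = U
  simp

lemma isVariety_open {U X : Sch k} (hX : IsVariety X) (j : U ⟶ X) (hj : IsOpenImmersion j.left) :
    IsVariety U := by
  have := hX.separated
  have := hX.locallyOfFiniteType
  have := hX.quasiCompact
  have := isLN hX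
  have e : U.hom = j.left ≫ X.hom := (Over.w j).symm
  refine ⟨?_, ?_, ?_⟩
  · rw [e]
    infer_instance
  · rw [e]
    infer_instance
  · rw [e]
    infer_instance

lemma ptDimLe_of_mem {i : ℕ} {X : Sch k} {x y : X.left} (hy : PtDim i X y)
    (h : x ∈ closure ({y} : Set X.left)) : PtDimLe i X x := by
  have h1 : closure ({x} : Set X.left) ⊆ closure {y} := by
    rw [isClosed_closure.closure_subset_iff]
    simpa using h
  have h2 := (Topology.IsEmbedding.inclusion h1).isInducing.topologicalKrullDim_le
  unfold PtDimLe
  unfold PtDim at hy
  rw [← hy]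
  exact h2

lemma ptDimLe_of_closed {i : ℕ} {Z X : Sch k} (ι : Z ⟶ X) (hι : IsClosedImmersion ι.left)
    (z : Z.left) (h : PtDimLe i X (ι.left z)) : PtDimLe i Z z := by
  have he : Topology.IsEmbedding ι.left := hι.isClosedEmbedding.isEmbedding
  have hm : Set.MapsTo ι.left (closure ({z} : Set Z.left)) (closure {ι.left z}) := by
    intro x hx
    refine map_mem_closure he.continuous hx ?_
    intro y hy
    rw [Set.mem_singleton_iff] at hy
    subst hy
    rfl
  have h2 : Topology.IsInducing (hm.restrict ι.left (closure ({z} : Set Z.left)) (closure {ι.left z})) :=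
    (he.restrict hm).isInducing
  exact h2.topologicalKrullDim_le.trans h

end Pool.Agent.K9h37.TS
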