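import Pool.Agent.K9h37.TS.Main
import Pool.Agent.K9h37.TS.Geo

/-!
From smooth projective varieties to all varieties.
-/

set_option autoImplicit false

open CategoryTheory CategoryTheory.Limits AlgebraicGeometry
open scoped TensorProduct

namespace Pool.Agent.K9h37.TS

section

variable {k : Type} [Field k]

lemma proper_of_proper {X₀ X : Sch k} (π : X₀ ⟶ X) (hX : IsProper X.hom) (hπ : IsProper π.left) :
    IsProper X₀.hom := by
  rw [← Over.w π]
  infer_instance

/-- the fibre product -/
noncomputable def fib {X₀ X : Sch k} (π : X₀ ⟶ X) : Sch k :=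
  Over.mk (pullback.fst π.left π.left ≫ X₀.hom)

noncomputable def fib₁ {X₀ X : Sch k} (π : X₀ ⟶ X) : fib π ⟶ X₀ :=
  Over.homMk (pullback.fst π.left π.left) rfl

noncomputable def fib₂ {X₀ X : Sch k} (π : X₀ ⟶ X) : fib π ⟶ X₀ :=
  Over.homMk (pullback.snd π.left π.left) (by
    change pullback.snd π.left π.left ≫ X₀.hom = pullback.fst π.left π.left ≫ X₀.hom
    have h : X₀.hom = π.left ≫ X.hom := (Over.w π).symm
    rw [h, ← Category.assoc, ← Category.assoc, pullback.condition])

lemma fib_condition {X₀ X X₁ : Sch k} (π : X₀ ⟶ X) (q : X₁ ⟶ fib π) :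
    (q ≫ fib₁ π).left ≫ π.left = (q ≫ fib₂ π).left ≫ π.left := by
  have h : (fib₁ π).left ≫ π.left = (fib₂ π).left ≫ π.left := by
    change pullback.fst π.left π.left ≫ π.left = pullback.snd π.left π.left ≫ π.left
    exact pullback.condition
  change (q.left ≫ (fib₁ π).left) ≫ π.left = (q.left ≫ (fib₂ π).left) ≫ π.left
  rw [Category.assoc, Category.assoc, h]

lemma fib_lift {X₀ X X₁ : Sch k} (π : X₀ ⟶ X) (q : X₁ ⟶ fib π) :
    pullback.lift (q ≫ fib₁ π).left (q ≫ fib₂ π).left (fib_condition π q) = q.left := by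
  apply pullback.hom_ext
  · rw [pullback.lift_fst]; rfl
  · rw [pullback.lift_snd]; rfl

end

namespace Homology

variable {k : Type} [Field k] {E : Type} [Field E] {Γ : Type} [Group Γ] {T : Homology k E Γ}

theorem proper_case [CharZero E] (hAlt : Alterations k)
    (hf : ∀ d i X, IsVariety X → IsSmoothProjective d X → T.Full i X) (i : ℕ) (X : Sch k)
    (hX : IsProper X.hom) : T.Full i X ∧ Rat E (T.B i X) := by
  obtain ⟨d, X₀, π', hs₀, hπ', hπs'⟩ := hAlt X hX
  let π : X₀ ⟶ X := π'
  have hπ : IsProper π.left := hπ'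
  have hπs : Surjective π.left := hπs'
  have hX₀ : IsProper X₀.hom := proper_of_proper π hX hπ
  have h1 : IsProper (fib₁ π).left := by
    change IsProper (pullback.fst π.left π.left)
    infer_instance
  have h2 : IsProper (fib₂ π).left := by
    change IsProper (pullback.snd π.left π.left)
    infer_instance
  have hP : IsProper (fib π).hom := proper_of_proper (fib₁ π) hX₀ h1
  obtain ⟨e, X₁, q', hs₁, hq', hqs'⟩ := hAlt (fib π) hP
  let q : X₁ ⟶ fib π := q'
  have hq : IsProper q.left := hq'
  have hqs : Surjective q.left := hqs'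
  have hX₁ : IsProper X₁.hom := proper_of_proper q hP hq
  have v := isVariety_of_proper hX
  have v₀ := isVariety_of_proper hX₀
  have v₁ := isVariety_of_proper hX₁
  have hl : IsProper (pullback.lift (q ≫ fib₁ π).left (q ≫ fib₂ π).left (fib_condition π q)) := by
    rw [fib_lift]; exact hq
  have hls : Surjective
      (pullback.lift (q ≫ fib₁ π).left (q ≫ fib₂ π).left (fib_condition π q)) := by
    rw [fib_lift]; exact hqs
  have ha : IsProper (q ≫ fib₁ π).left := by
    change IsProper (q.left ≫ (fib₁ π).left)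
    infer_instance
  have hb : IsProper (q ≫ fib₂ π).left := by
    change IsProper (q.left ≫ (fib₂ π).left)
    infer_instance
  exact ⟨full_proper π _ _ (fib_condition π q) i v v₀ v₁ hπ hπs hl hls (hf d i X₀ v₀ hs₀),
    rat_proper π _ _ (fib_condition π q) i v v₀ v₁ hπ hπs ha hb hl hls (hf e i X₁ v₁ hs₁)
      (rat_smooth v₀ hs₀ (hf d (d - i) X₀ v₀ hs₀))⟩

theorem all_case [CharZero E] (hAlt : Alterations k) (hComp : Compactifications k)
    (hf : ∀ d i X, IsVariety X → IsSmoothProjective d X → T.Full i X) (i : ℕ) (X : Sch k)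
    (hX : IsVariety X) : T.Full i X ∧ Rat E (T.B i X) := by
  obtain ⟨Y, j', hY, hj'⟩ := hComp X hX
  let j : X ⟶ Y := j'
  have hj : IsOpenImmersion j.left := hj'
  let C : TopologicalSpace.Closeds Y.left :=
    ⟨(Set.range j.left)ᶜ, j.left.isOpenEmbedding.isOpen_range.isClosed_compl⟩
  have hZ : IsProper (closedSub Y C).hom := isProper_closedSub hY C
  have hι : IsClosedImmersion (closedInc Y C).left := inferInstance
  have hr : Set.range (closedInc Y C).left = (Set.range j.left)ᶜ := range_closedInc Y C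
  have hYf := proper_case hAlt hf i Y hY
  have hZf := proper_case hAlt hf i (closedSub Y C) hZ
  have vY := isVariety_of_proper hY
  have vZ := isVariety_of_proper hZ
  exact ⟨full_open j i vZ hX vY (closedInc Y C) hι hj hr hYf.1,
    rat_open j i vZ hX vY (closedInc Y C) hι hj hr hZf.1 hYf.2⟩

theorem conj [CharZero E] {i : ℕ} {X : Sch k} (hX : IsVariety X)
    (h : T.Full i X ∧ Rat E (T.B i X)) : T.PartA i X ∧ T.PartB i X ∧ T.PoleOrder i X :=
  ⟨partA_of_full hX h.1, partB_of_full hX h.1 h.2, poleOrder_of_full hX h.1 h.2⟩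

end Homology

/-- Spreading out -/
theorem full_of_spreading {k₀ k : Type} [Field k₀] [Field k] {E : Type} [Field E] {Γ₁ Γ : Type}
    [Group Γ₁] [Group Γ] {T₀ : Homology k₀ E Γ₁} {T : Homology k E Γ}
    (hS : SpreadingOut T₀.toHomologyData T.toHomologyData)
    (h₀ : ∀ i X, IsVariety X → T₀.Full i X) (d i : ℕ) (X : Sch k) (hX : IsSmoothProjective d X) :
    T.Full i X := by
  obtain ⟨j, Y, r, hY, h1, h2⟩ := hS d i X hX
  intro v n hv hn
  obtain ⟨y, ⟨hy1, m, hy2⟩, rfl⟩ := h1 v ⟨hv, n, hn⟩
  have hy : y ∈ T₀.S j Y := h₀ j Y hY y m hy1 hy2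
  clear hy1 hy2 hv hn
  induction hy using Submodule.span_induction with
  | mem c hc =>
    obtain ⟨z, hz, rfl⟩ := hc
    rcases h2 z hz with h | ⟨x, hx, h⟩
    · rw [h]; exact Submodule.zero_mem _
    · rw [h]; exact T.cl_mem_S hx
  | zero => rw [map_zero]; exact Submodule.zero_mem _
  | add a b _ _ ha hb => rw [map_add]; exact Submodule.add_mem _ ha hb
  | smul e a _ ha => rw [map_smul]; exact Submodule.smul_mem _ e ha

end Pool.Agent.K9h37.TS
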