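import Pool.Agent.K9h37.TS.Main
import Pool.Agent.K9h37.TS.Geo

/-!
Smooth projective varieties over a finite field: the conjectures for the complements of closed
subsets of dimension `i` on which all cycles are homologically trivial imply that the generalised
invariants are spanned by classes of cycles.
-/

set_option autoImplicit false

open CategoryTheory CategoryTheory.Limits AlgebraicGeometry
open scoped TensorProduct

namespace Pool.Agent.K9h37.TS

namespace Homology

variable {k : Type} [Field k] {E : Type} [Field E] {Γ : Type} [Group Γ] {T : Homology k E Γ}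

/-- if all classes are zero and part (a) holds, there are no generalised invariants -/
lemma gen_zero_of_partA (hgeo : T.geo = ⊥) {i : ℕ} {U : Sch k} (hU : IsVariety U)
    (h0 : ∀ x, PtDim i U x → T.cl i U x = 0) (hA : T.PartA i U) (n : ℕ) (v : T.H i U)
    (hv : ((T.ρ i U T.frob - 1) ^ n) v = 0) : v = 0 := by
  have hS : ∀ v ∈ T.S i U, v = 0 := by
    intro v hv
    induction hv using Submodule.span_induction with
    | mem c hc =>
      obtain ⟨x, hx, rfl⟩ := hc
      exact h0 x hx
    | zero => rfl
    | add a b _ _ ha hb => rw [ha, hb, add_zero]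
    | smul e a _ ha => rw [ha, smul_zero]
  induction n generalizing v with
  | zero => exact hv
  | succ n ih =>
    have h1 : (T.ρ i U T.frob - 1) v = 0 := by
      apply ih
      rw [← Module.End.mul_apply, ← pow_succ]
      exact hv
    have h2 : T.ρ i U T.frob v = v := by
      rw [LinearMap.sub_apply] at h1
      exact sub_eq_zero.1 h1
    refine hS v ((partA_iff hU).1 hA v (T.continuity i U hU v ?_ h2))
    intro g hg
    rw [hgeo, Subgroup.mem_bot] at hg
    rw [hg, map_one]; rfl

/-- if all classes are zero and the order of the pole is zero, there are no generalised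
invariants -/
lemma gen_zero_of_poleOrder {i : ℕ} {U : Sch k} (hU : IsVariety U)
    (h0 : ∀ x, PtDim i U x → T.cl i U x = 0) (hA : T.PoleOrder i U) (v : T.H i U)
    (hv : v ∈ (T.data i U hU).Gen) : v = 0 := by
  have := T.finite i U hU
  have hB : T.B i U = ⊥ := by
    rw [eq_bot_iff]
    refine (AddSubgroup.closure_le _).2 ?_
    rintro c ⟨x, hx, rfl⟩
    rw [h0 x hx]
    exact AddSubgroup.zero_mem _
  have h1 := T.ordL_eq i U hU (T.data i U hU).Gen (fun v => Iff.rfl)
  unfold HomologyData.PoleOrder at hA
  rw [h1, hB] at hA
  have h2 : Module.finrank ℤ (⊥ : AddSubgroup (T.H i U)) = 0 :=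
    Module.finrank_zero_of_subsingleton
  rw [h2] at hA
  have h3 : Module.finrank E (T.data i U hU).Gen = 0 := by
    have := neg_injective hA
    exact_mod_cast this
  have h4 : (T.data i U hU).Gen = ⊥ := Submodule.finrank_eq_zero.1 h3
  rw [h4, Submodule.mem_bot] at hv
  exact hv

/-- a generalised fixed vector of an operator of finite order is fixed -/
lemma fixed_of_finite_order [CharZero E] {M : Type} [AddCommGroup M] [Module E M]
    (F : Module.End E M) (n : ℕ) (hn : 0 < n) (hF : F ^ n = 1) (m : ℕ) (v : M)
    (hv : ((F - 1) ^ m) v = 0) : F v = v := by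
  induction m generalizing v with
  | zero =>
    have : v = 0 := hv
    rw [this, map_zero]
  | succ m ih =>
    have h1 := ih ((F - 1) v) (by
      rw [← Module.End.mul_apply, ← pow_succ]
      exact hv)
    set z := (F - 1) v with hz
    have hFv : F v = v + z := by
      rw [hz, LinearMap.sub_apply]
      change _ = v + (_ - v)
      abel
    have hpz : ∀ j : ℕ, (F ^ j) z = z := by
      intro j
      induction j with
      | zero => rfl
      | succ j ih => rw [pow_succ, Module.End.mul_apply, h1, ih]
    have hpow : ∀ j : ℕ, (F ^ j) v = v + j • z := by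
      intro j
      induction j with
      | zero => rw [pow_zero, zero_smul, add_zero]; rfl
      | succ j ih =>
        rw [pow_succ, Module.End.mul_apply, hFv, map_add, ih, succ_nsmul, hpz]
        abel
    have h2 := hpow n
    rw [hF, Module.End.one_apply] at h2
    have h3 : n • z = 0 := by
      have h4 : n • z = (v + n • z) - v := by abel
      rw [h4, ← h2, sub_self]
    have h5 : z = 0 := by
      rw [← Nat.cast_smul_eq_nsmul E] at h3
      refine (smul_eq_zero.1 h3).resolve_left ?_
      exact_mod_cast hn.ne'
    rw [hFv, h5, add_zero]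

theorem full_of_open [CharZero E] (hgeo : T.geo = ⊥) {i : ℕ} {X : Sch k} (hX : IsVariety X)
    (hA : ∀ s : Finset X.left, (∀ x ∈ s, PtDim i X x) → ∀ (U : Sch k) (j : U ⟶ X),
      IsOpenImmersion j.left → Set.range j.left = (closure (s : Set X.left))ᶜ →
      (∀ x, PtDim i U x → T.cl i U x = 0) → T.PartA i U ∨ T.PoleOrder i U) : T.Full i X := by
  classical
  have := T.finite i X hX
  -- finitely many points whose classes span the space of all classes
  obtain ⟨t, ht1, ht2⟩ := (Submodule.fg_span_iff_fg_span_finset_subset (R := E)
    {c : T.H i X | ∃ x, PtDim i X x ∧ T.cl i X x = c}).1 (IsNoetherian.noetherian _)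
  choose y hy1 hy2 using fun c : t => ht1 c.2
  let y' : t → X.left := y
  let s : Finset X.left := Finset.univ.image y'
  have hs1 : ∀ x ∈ s, PtDim i X x := by
    intro x hx
    obtain ⟨c, -, rfl⟩ := Finset.mem_image.1 hx
    exact hy1 c
  let C : TopologicalSpace.Closeds X.left := ⟨closure (s : Set X.left), isClosed_closure⟩
  have hC : ∀ x ∈ C, PtDimLe i X x := by
    intro x hx
    have h1 : x ∈ ⋃ y ∈ (s : Set X.left), closure ({y} : Set X.left) := by
      rw [← s.finite_toSet.closure_biUnion, Set.biUnion_of_singleton]
      exact hx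
    obtain ⟨y, hy, hxy⟩ := Set.mem_iUnion₂.1 h1
    exact ptDimLe_of_mem (hs1 y hy) hxy
  let Z := closedSub X C
  let U := openSub X C.compl
  have hZ : IsVariety Z := isVariety_closedSub hX C
  have hj : IsOpenImmersion (openInc X C.compl).left := inferInstance
  have hU : IsVariety U := isVariety_open hX (openInc X C.compl) hj
  have hι : IsClosedImmersion (closedInc X C).left := inferInstance
  have hp : IsProper (closedInc X C).left := inferInstance
  have hrj : Set.range (openInc X C.compl).left = (C : Set X.left)ᶜ := by
    rw [range_openInc]; rfl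
  have hr : Set.range (closedInc X C).left = (Set.range (openInc X C.compl).left)ᶜ := by
    rw [range_closedInc, hrj, compl_compl]
  have hloc := (T.localization (closedInc X C) (openInc X C.compl) i hZ hU hX hι hj hr).2
  have := T.finite i Z hZ
  -- all classes on `U` are zero
  have hS0 : ∀ w ∈ T.S i X, T.res (openInc X C.compl) i w = 0 := by
    intro w hw
    change w ∈ Submodule.span E _ at hw
    rw [ht2] at hw
    induction hw using Submodule.span_induction with
    | mem c hc =>
      have h1 := hy2 ⟨c, hc⟩
      have h2 := T.cl_res_zero (openInc X C.compl) i hU hX hj (y ⟨c, hc⟩) (hy1 ⟨c, hc⟩) (by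
        intro h
        rw [hrj] at h
        exact h (subset_closure (Finset.mem_coe.2 (Finset.mem_image_of_mem y' (Finset.mem_univ _)))))
      rw [h1] at h2
      exact h2
    | zero => exact map_zero _
    | add a b _ _ ha hb => rw [map_add, ha, hb, add_zero]
    | smul e a _ ha => rw [map_smul, ha, smul_zero]
  have hcl : ∀ x, PtDim i U x → T.cl i U x = 0 := by
    intro x hx
    rw [← T.cl_res (openInc X C.compl) i hU hX hj x hx]
    exact hS0 _ (T.cl_mem_S ((T.dim_open (openInc X C.compl) hU hX hj i x).1 hx))
  have hgen : ∀ v ∈ (T.data i U hU).Gen, v = 0 := by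
    rcases hA s hs1 U (openInc X C.compl) hj hrj hcl with h | h
    · rintro v ⟨-, n, hn⟩
      exact gen_zero_of_partA hgeo hU hcl h n v hn
    · exact gen_zero_of_poleOrder hU hcl h
  rw [T.full_iff hX]
  intro v hv
  have h0 : T.res (openInc X C.compl) i v = 0 :=
    hgen _ ((isMor_res (openInc X C.compl) i hU hX hj).Gen v hv)
  obtain ⟨α, hα, rfl⟩ := (isMor_push (closedInc X C) i hZ hX hp).lift v hv
    ((hloc v ((T.data i X hX).Gen_le_W hv)).1 h0)
  have hdim : ∀ z, PtDimLe i Z z := fun z => ptDimLe_of_closed (closedInc X C) hι z
    (hC _ (by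
      have : (closedInc X C).left z ∈ Set.range (closedInc X C).left := ⟨z, rfl⟩
      rw [range_closedInc] at this
      exact this))
  obtain ⟨n, hn, hfin⟩ := T.small i Z hZ hdim
  obtain ⟨hα1, m, hα2⟩ := hα
  have hαF : T.ρ i Z T.frob α = α := fixed_of_finite_order _ n hn (hfin _) m α hα2
  have hα3 := T.small_span i Z hZ hdim α (T.continuity i Z hZ α hα1 hαF)
  rw [T.span_B] at hα3
  exact push_S (closedInc X C) i hZ hX hp α hα3

end Homology

end Pool.Agent.K9h37.TS
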