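import Mathlib

/-!
The properties of the `ℓ`-adic étale (Borel-Moore) homology of the varieties over a finitely generated
field of positive characteristic which are used in `Pool.Agent.K9h37.TS`, and the conjectures of
Tate and Jannsen for singular varieties.
-/

set_option autoImplicit false

open CategoryTheory CategoryTheory.Limits AlgebraicGeometry
open scoped TensorProduct

namespace Pool.Agent.K9h37.TS

/-! ### Schemes over a field -/

/-- schemes over the field `k` -/
abbrev Sch (k : Type) [Field k] : Type 1 := Over (Spec (CommRingCat.of k))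

section

variable {k : Type} [Field k]

/-- the morphisms over `k` -/
def Mor (X Y : Sch k) : Type := X ⟶ Y

/-- the underlying morphism of schemes -/
noncomputable def Mor.sch {X Y : Sch k} (f : Mor X Y) : X.left ⟶ Y.left := Over.Hom.left (show X ⟶ Y from f)

/-- the points of `X` -/
def Pt (X : Sch k) : Type := X.left

/-- the image of a point -/
noncomputable def Mor.pt {X Y : Sch k} (f : Mor X Y) (x : Pt X) : Pt Y := f.sch (show X.left from x)

/-- the morphism is proper -/
def Mor.IsProp {X Y : Sch k} (f : Mor X Y) : Prop := IsProper f.sch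

/-- the morphism is surjective -/
def Mor.IsSurj {X Y : Sch k} (f : Mor X Y) : Prop := Surjective f.sch

/-- the morphism is an open immersion -/
def Mor.IsOpen {X Y : Sch k} (f : Mor X Y) : Prop := IsOpenImmersion f.sch

/-- the morphism is a closed immersion -/
def Mor.IsClosed {X Y : Sch k} (f : Mor X Y) : Prop := IsClosedImmersion f.sch

/-- `X` is a variety over `k`: separated and of finite type. -/
structure IsVariety (X : Sch k) : Prop where
  separated : IsSeparated X.hom
  locallyOfFiniteType : LocallyOfFiniteType X.hom
  quasiCompact : QuasiCompact X.hom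

/-- The point `x` of `X` has dimension `i`: its closure has dimension `i`. -/
def PtDim (i : ℕ) (X : Sch k) (x : Pt X) : Prop :=
  topologicalKrullDim (closure ({(show X.left from x)} : Set X.left)) = i

/-- the dimension of the point `x` is at most `i` -/
def PtDimLe (i : ℕ) (X : Sch k) (x : Pt X) : Prop :=
  topologicalKrullDim (closure ({(show X.left from x)} : Set X.left)) ≤ i

/-- The open immersion `j` and the closed immersion `ι` have complementary images. -/
def AreComplementary {Z U X : Sch k} (ι : Mor Z X) (j : Mor U X) : Prop :=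
  ι.IsClosed ∧ j.IsOpen ∧ Set.range ι.sch = (Set.range j.sch)ᶜ

/-- `π : X₀ ⟶ X` is proper and surjective, and so is the morphism from `X₁` to the fibre product
`X₀ ×_X X₀` given by `a` and `b`. -/
def IsPresentation {X X₀ X₁ : Sch k} (π : Mor X₀ X) (a b : Mor X₁ X₀) : Prop :=
  π.IsProp ∧ π.IsSurj ∧ ∃ h : a.sch ≫ π.sch = b.sch ≫ π.sch,
    IsProper (pullback.lift a.sch b.sch h) ∧ Surjective (pullback.lift a.sch b.sch h)

/-- `j` is an open immersion, and its image is the complement in `X` of the closure of finitely many
points of dimension `i`. -/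
def IsCycleComplement (i : ℕ) {U X : Sch k} (j : Mor U X) : Prop :=
  j.IsOpen ∧ ∃ s : Finset X.left, (∀ x ∈ s, PtDim i X x) ∧
    Set.range j.sch = (closure (s : Set X.left))ᶜ

attribute [local instance] MvPolynomial.gradedAlgebra in
/-- The morphism `h` from `X` to the spectrum of the field `L` is projective: it factors through a
closed immersion into a projective space over `L`. -/
def IsProjectiveOver (L : Type) [Field L] (X : Scheme.{0}) (h : X ⟶ Spec (CommRingCat.of L)) : Prop :=
  ∃ (n : ℕ) (ι : X ⟶ Proj (MvPolynomial.homogeneousSubmodule (Fin (n + 1)) L)),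
    IsClosedImmersion ι ∧
      ι ≫ Proj.toSpecZero (MvPolynomial.homogeneousSubmodule (Fin (n + 1)) L) ≫
        Spec.map (CommRingCat.ofHom
          (algebraMap L (MvPolynomial.homogeneousSubmodule (Fin (n + 1)) L 0))) = h

/-- `X` is a smooth projective scheme of pure dimension `d` over a finite extension `L` of `k`,
considered as a scheme over `k`. For a perfect field `k` this means that `X` is smooth and projective
over `k` of pure dimension `d`. -/
def IsSmoothProjective (d : ℕ) (X : Sch k) : Prop :=
  ∃ (L : Type) (_ : Field L) (_ : Algebra k L) (_ : FiniteDimensional k L)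
    (h : X.left ⟶ Spec (CommRingCat.of L)),
    h ≫ Spec.map (CommRingCat.ofHom (algebraMap k L)) = X.hom ∧
    SmoothOfRelativeDimension d h ∧ IsProjectiveOver L X.left h

/-- Alterations (de Jong): for every proper variety `X` over `k` there is a proper surjective morphism
`X₀ ⟶ X` over `k`, where `X₀` is smooth and projective of pure dimension over a finite extension
of `k`. -/
def Alterations (k : Type) [Field k] : Prop :=
  ∀ X : Sch k, IsProper X.hom → ∃ (d : ℕ) (X₀ : Sch k) (π : Mor X₀ X),
    IsSmoothProjective d X₀ ∧ π.IsProp ∧ π.IsSurj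

/-- Compactifications (Nagata): every variety `X` over `k` is an open subscheme of a proper variety. -/
def Compactifications (k : Type) [Field k] : Prop :=
  ∀ X : Sch k, IsVariety X → ∃ (Y : Sch k) (j : Mor X Y), IsProper Y.hom ∧ j.IsOpen

end

/-- the tensor product over `ℤ` of the field `E` with the subgroup `B` of an `E`-vector space `M` -/
def Ext (E : Type) [Field E] {M : Type} [AddCommGroup M] (B : AddSubgroup M) : Type := E ⊗[ℤ] B

/-- the map `E ⊗ B → M` which maps `e ⊗ b` to `e b` -/
noncomputable def extMap (E : Type) [Field E] {M : Type} [AddCommGroup M] [Module E M]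
    (B : AddSubgroup M) (t : Ext E B) : M :=
  B.subtype.toIntLinearMap.liftBaseChange E t

/-! ### The homology theory -/

/-- Functorial data on the varieties over `k`, like the étale homology `H_{2i}(X̄, ℚ_ℓ(i))`; `k` is a
finitely generated field of characteristic `p ≠ ℓ`, `E` is the field `ℚ_ℓ` and `Γ` is the absolute
Galois group of `k`. -/
structure HomologyData (k : Type) [Field k] (E : Type) [Field E] (Γ : Type) [Group Γ] where
  /-- the geometric part `Γ₀` of `Γ`, the kernel of the map to the absolute Galois group of the field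
  of constants `k₀`, a finite field -/
  geo : Subgroup Γ
  /-- an element of `Γ` which induces the Frobenius automorphism of the algebraic closure of `k₀` -/
  frob : Γ
  /-- the vector space `H_{2i}(X̄, ℚ_ℓ(i))` -/
  H : ℕ → Sch k → Type
  grp : ∀ i X, AddCommGroup (H i X)
  mod : ∀ i X, Module E (H i X)
  /-- the action of the Galois group -/
  ρ : ∀ i X, Γ →* Module.End E (H i X)
  /-- the part of weight zero `W₀ H_{2i}(X̄, ℚ_ℓ(i))` (the smallest weight) -/
  W : ∀ i X, Submodule E (H i X)
  /-- the covariant functoriality for proper morphisms -/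
  push : ∀ {X Y : Sch k} (_ : Mor X Y) (i : ℕ), H i X →ₗ[E] H i Y
  /-- the restriction to open subvarieties -/
  res : ∀ {U X : Sch k} (_ : Mor U X) (i : ℕ), H i X →ₗ[E] H i U
  /-- the class of the closure of a point `x` of dimension `i` -/
  cl : ∀ (i : ℕ) (X : Sch k), Pt X → H i X
  /-- for smooth projective varieties of pure dimension `d`: the intersection product
  `H_{2i}(X̄, ℚ_ℓ(i)) × H_{2d-2i}(X̄, ℚ_ℓ(d-i)) → ℚ_ℓ` -/
  pairing : ∀ (d i : ℕ) (X : Sch k), H i X →ₗ[E] H (d - i) X →ₗ[E] E
  /-- the order of vanishing of the L-function `L(X, s)` (of the cohomology with compact supports of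
  degree `2 i`) at `s = i + dim_a(k)`, `dim_a(k)` the transcendence degree of `k` -/
  ordL : ℕ → Sch k → ℤ

attribute [instance] HomologyData.grp HomologyData.mod

namespace HomologyData

variable {k : Type} [Field k] {E : Type} [Field E] {Γ : Type} [Group Γ]

/-- the action of the Galois group -/
def act (T : HomologyData k E Γ) {i : ℕ} {X : Sch k} (g : Γ) (v : T.H i X) : T.H i X :=
  T.ρ i X g v

/-- the image of `v` under the proper morphism `f` -/
def pf (T : HomologyData k E Γ) {X Y : Sch k} (f : Mor X Y) {i : ℕ} (v : T.H i X) : T.H i Y :=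
  T.push f i v

/-- the restriction of `v` to an open subvariety -/
def rs (T : HomologyData k E Γ) {U X : Sch k} (j : Mor U X) {i : ℕ} (v : T.H i X) : T.H i U :=
  T.res j i v

/-- the intersection number -/
def num (T : HomologyData k E Γ) (d i : ℕ) (X : Sch k) (v : T.H i X) (w : T.H (d - i) X) : E :=
  T.pairing d i X v w

/-- invariant under `Γ` -/
def IsInv (T : HomologyData k E Γ) {i : ℕ} {X : Sch k} (v : T.H i X) : Prop :=
  ∀ g, T.act g v = v

/-- invariant under the geometric part `Γ₀` -/
def IsGeoInv (T : HomologyData k E Γ) {i : ℕ} {X : Sch k} (v : T.H i X) : Prop :=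
  ∀ g ∈ T.geo, T.act g v = v

/-- A generalised invariant: invariant under `Γ₀`, and a generalised eigenvector of the Frobenius
element for the eigenvalue one. -/
def IsGenInv (T : HomologyData k E Γ) {i : ℕ} {X : Sch k} (v : T.H i X) : Prop :=
  T.IsGeoInv v ∧ ∃ n : ℕ, ((T.ρ i X T.frob - 1) ^ n) v = 0

/-- the group `B_i(X)` of the classes of the cycles of dimension `i` on `X`, in the homology with
rational coefficients -/
def B (T : HomologyData k E Γ) (i : ℕ) (X : Sch k) : AddSubgroup (T.H i X) :=
  AddSubgroup.closure {c | ∃ x, PtDim i X x ∧ T.cl i X x = c}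

/-- The known properties of the action of the Galois group. -/
structure GaloisAction (T : HomologyData k E Γ) : Prop where
  normal : T.geo.Normal
  finite : ∀ i X, IsVariety X → FiniteDimensional E (T.H i X)
  W_stable : ∀ i X, IsVariety X → ∀ (g : Γ) (v : T.H i X), v ∈ T.W i X → T.act g v ∈ T.W i X
  /-- Weights (Deligne): the generalised invariants have weight zero. -/
  weights : ∀ i X, IsVariety X → ∀ v : T.H i X, T.IsGenInv v → v ∈ T.W i X
  /-- The Galois group acts continuously, and it is topologically generated by `Γ₀` and the Frobenius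
  element. -/
  continuity : ∀ i X, IsVariety X → ∀ v : T.H i X, T.IsGeoInv v → T.act T.frob v = v → T.IsInv v
  /-- Geometric semisimplicity (Deligne): the part of weight zero is a semisimple representation
  of `Γ₀`. -/
  semisimple : ∀ i X, IsVariety X → ∀ N : Submodule E (T.H i X), N ≤ T.W i X →
    (∀ g ∈ T.geo, ∀ v ∈ N, T.act g v ∈ N) → ∃ C : Submodule E (T.H i X), C ≤ T.W i X ∧
      (∀ g ∈ T.geo, ∀ v ∈ C, T.act g v ∈ C) ∧ N ⊓ C = ⊥ ∧ N ⊔ C = T.W i X

/-- The functoriality for proper morphisms and for open immersions. -/
structure Functorial (T : HomologyData k E Γ) : Prop where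
  push_ρ : ∀ {X Y : Sch k} (f : Mor X Y) (i : ℕ), IsVariety X → IsVariety Y → f.IsProp →
    ∀ (g : Γ) (v : T.H i X), T.pf f (T.act g v) = T.act g (T.pf f v)
  push_W : ∀ {X Y : Sch k} (f : Mor X Y) (i : ℕ), IsVariety X → IsVariety Y → f.IsProp →
    ∀ v ∈ T.W i X, T.pf f v ∈ T.W i Y
  res_ρ : ∀ {U X : Sch k} (j : Mor U X) (i : ℕ), IsVariety U → IsVariety X → j.IsOpen →
    ∀ (g : Γ) (v : T.H i X), T.rs j (T.act g v) = T.act g (T.rs j v)
  res_W : ∀ {U X : Sch k} (j : Mor U X) (i : ℕ), IsVariety U → IsVariety X → j.IsOpen →
    ∀ v ∈ T.W i X, T.rs j v ∈ T.W i U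

/-- The localization sequence, on the parts of weight zero:
`W₀ H_{2i}(Z̄) → W₀ H_{2i}(X̄) → W₀ H_{2i}(Ū) → 0` is exact for a closed subscheme `Z` with open
complement `U` (the weights of the next term `H_{2i-1}(Z̄)` are positive). -/
def Localization (T : HomologyData k E Γ) : Prop :=
  ∀ {Z U X : Sch k} (ι : Mor Z X) (j : Mor U X) (i : ℕ), IsVariety Z → IsVariety U →
    IsVariety X → AreComplementary ι j →
    (∀ v ∈ T.W i U, ∃ w ∈ T.W i X, T.rs j w = v) ∧
    ∀ w ∈ T.W i X, T.rs j w = 0 ↔ ∃ z ∈ T.W i Z, T.pf ι z = w

/-- Proper descent, on the parts of weight zero: if `π : X₀ ⟶ X` and the morphism from `X₁` to the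
fibre product `X₀ ×_X X₀` given by `a` and `b` are proper and surjective, then
`W₀ H_{2i}(X̄₁) → W₀ H_{2i}(X̄₀) → W₀ H_{2i}(X̄) → 0`, where the first map is the difference of
`a` and `b`, is exact. -/
def Descent (T : HomologyData k E Γ) : Prop :=
  ∀ {X X₀ X₁ : Sch k} (π : Mor X₀ X) (a b : Mor X₁ X₀) (i : ℕ), IsVariety X → IsVariety X₀ →
    IsVariety X₁ → IsPresentation π a b →
    (∀ v ∈ T.W i X, ∃ w ∈ T.W i X₀, T.pf π w = v) ∧
    ∀ w ∈ T.W i X₀, T.pf π w = 0 ↔ ∃ z ∈ T.W i X₁, T.pf a z - T.pf b z = w

/-- The known properties of the cycle classes. -/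
structure CycleClasses (T : HomologyData k E Γ) : Prop where
  cl_inv : ∀ i X, IsVariety X → ∀ x, PtDim i X x → T.IsInv (T.cl i X x)
  cl_push : ∀ {X Y : Sch k} (f : Mor X Y) (i : ℕ), IsVariety X → IsVariety Y → f.IsProp →
    ∀ x, PtDim i X x →
      (PtDim i Y (f.pt x) ∧ ∃ n : ℕ, 0 < n ∧ T.pf f (T.cl i X x) = n • T.cl i Y (f.pt x)) ∨
      (¬ PtDim i Y (f.pt x) ∧ T.pf f (T.cl i X x) = 0)
  /-- For a proper surjective morphism `π : X₀ ⟶ X` there is `n > 0` such that `n` times the class of
  every point of `X` is the image of an integral combination of classes of points of `X₀` (by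
  Noetherian induction there are multisections over the parts of a stratification of `X`). -/
  multisections : ∀ {X X₀ : Sch k} (π : Mor X₀ X) (i : ℕ), IsVariety X → IsVariety X₀ →
    π.IsProp → π.IsSurj → ∃ n : ℕ, 0 < n ∧ ∀ x, PtDim i X x →
      ∃ b ∈ T.B i X₀, T.pf π b = n • T.cl i X x
  /-- Dimension theory: the points of an open subvariety `U` have the same dimension in `U` and in
  `X`. -/
  dim_open : ∀ {U X : Sch k} (j : Mor U X), IsVariety U → IsVariety X → j.IsOpen →
    ∀ (i : ℕ) (u : Pt U), PtDim i U u ↔ PtDim i X (j.pt u)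
  cl_res : ∀ {U X : Sch k} (j : Mor U X) (i : ℕ), IsVariety U → IsVariety X → j.IsOpen →
    ∀ u, PtDim i U u → T.rs j (T.cl i X (j.pt u)) = T.cl i U u
  cl_res_zero : ∀ {U X : Sch k} (j : Mor U X) (i : ℕ), IsVariety U → IsVariety X → j.IsOpen →
    ∀ x, PtDim i X x → (∀ u, j.pt u ≠ x) → T.rs j (T.cl i X x) = 0
  /-- If `dim Z ≤ i`, then `H_{2i}(Z̄, ℚ_ℓ(i))` has as a basis the irreducible components of `Z̄` of
  dimension `i`: the Galois group acts through a finite quotient, and the invariants are spanned by
  the classes of the irreducible components of `Z`. -/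
  small : ∀ (i : ℕ) (Z : Sch k), IsVariety Z → (∀ z, PtDimLe i Z z) →
    (∃ n : ℕ, 0 < n ∧ ∀ (g : Γ) (v : T.H i Z), T.act (g ^ n) v = v) ∧
    ∀ v : T.H i Z, T.IsInv v → v ∈ Submodule.span E (T.B i Z : Set (T.H i Z))

/-- The known properties of smooth projective varieties: Poincaré duality, purity and the hard
Lefschetz theorem (Deligne). -/
structure SmoothProjective (T : HomologyData k E Γ) : Prop where
  pairing_inv : ∀ d i X, IsSmoothProjective d X → i ≤ d → ∀ (g : Γ) (v : T.H i X)
    (w : T.H (d - i) X), T.num d i X (T.act g v) (T.act g w) = T.num d i X v w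
  pairing_nondeg : ∀ d i X, IsSmoothProjective d X → i ≤ d → ∀ v : T.H i X,
    (∀ w, T.num d i X v w = 0) → v = 0
  pairing_int : ∀ d i X, IsSmoothProjective d X → i ≤ d → ∀ x y, PtDim i X x → PtDim (d - i) X y →
    ∃ m : ℤ, T.num d i X (T.cl i X x) (T.cl (d - i) X y) = m
  zero_above : ∀ d i X, IsSmoothProjective d X → d < i → Subsingleton (T.H i X)
  /-- The homology of a smooth projective variety is pure (Deligne). -/
  pure : ∀ d i X, IsSmoothProjective d X → T.W i X = ⊤
  /-- The hard Lefschetz theorem (Deligne): the intersection with the power of exponent `d - 2 i` of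
  the class of a hyperplane maps `H_{2(d-i)}(X̄, ℚ_ℓ(d-i))` isomorphically to `H_{2i}(X̄, ℚ_ℓ(i))`, and
  cycles to cycles. -/
  lefschetz : ∀ d i X, IsSmoothProjective d X → 2 * i ≤ d → ∃ L : T.H (d - i) X →ₗ[E] T.H i X,
    Function.Surjective L ∧ (∀ (g : Γ) (v : T.H (d - i) X), L (T.act g v) = T.act g (L v)) ∧
    ∀ x, PtDim (d - i) X x → L (T.cl (d - i) X x) ∈ T.B i X

/-- The formula of Grothendieck for the L-function, and the weights (Deligne): the L-function has a
pole, whose order is the dimension of the space of the generalised invariants. -/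
def OrderFormula (T : HomologyData k E Γ) : Prop :=
  ∀ i X, IsVariety X → ∀ G : Submodule E (T.H i X), (∀ v, v ∈ G ↔ T.IsGenInv v) →
    T.ordL i X = - (Module.finrank E G : ℤ)

/-! ### The conjectures -/

/-- Part (a) of the conjecture: the classes of the cycles of dimension `i` on `X` span the space of the
invariants. -/
def PartA (T : HomologyData k E Γ) (i : ℕ) (X : Sch k) : Prop :=
  ∀ v : T.H i X, T.IsInv v ↔ v ∈ Submodule.span E (T.B i X : Set (T.H i X))

/-- Part (b) of the conjecture: `B_i(X)` is finitely generated and `ℚ_ℓ ⊗ B_i(X)` is mapped isomorphically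
to the invariants. -/
def PartB (T : HomologyData k E Γ) (i : ℕ) (X : Sch k) : Prop :=
  (T.B i X).FG ∧ (∀ s t : Ext E (T.B i X), extMap E (T.B i X) s = extMap E (T.B i X) t → s = t) ∧
    ∀ v : T.H i X, T.IsInv v ↔ ∃ t : Ext E (T.B i X), extMap E (T.B i X) t = v

/-- The second conjecture: the order of the pole of the L-function is the rank of `B_i(X)`. -/
def PoleOrder (T : HomologyData k E Γ) (i : ℕ) (X : Sch k) : Prop :=
  T.ordL i X = - (Module.finrank ℤ (T.B i X) : ℤ)

end HomologyData

/-- Functorial data on the varieties over `k`, with the properties which are known for the étale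
homology `H_{2i}(X̄, ℚ_ℓ(i))`. -/
structure Homology (k : Type) [Field k] (E : Type) [Field E] (Γ : Type) [Group Γ] extends
    HomologyData k E Γ where
  galoisAction : toHomologyData.GaloisAction
  functorial : toHomologyData.Functorial
  localizationSequence : toHomologyData.Localization
  properDescent : toHomologyData.Descent
  cycleClasses : toHomologyData.CycleClasses
  smoothProjective : toHomologyData.SmoothProjective
  orderFormula : toHomologyData.OrderFormula

/-- The relation between the homology of the varieties over the finitely generated field `k` and over a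
finite subfield `k₀`, for example the prime field (for one prime `ℓ`, `E = ℚ_ℓ`). A smooth projective
variety `X` over (a finite extension of) `k` is the generic fibre of a smooth projective morphism to a
smooth variety over `k₀`, whose total space `Y` is a variety over `k₀`. By the degeneration of
the Leray spectral sequence (Deligne) the restriction `r` to the generic fibre maps the homology of `Y`
onto the invariants of the geometric Galois group `Γ₀` in the homology of `X`, compatibly
with the Frobenius elements (if the field of constants of `k` is larger than `k₀`, the homology of `Y`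
over `k₀` is an induced representation, and `r` includes the projection onto one component). The
closure in `Y` of a point of `X` has a restriction equal to the class of the point, and the points
outside the generic fibre are mapped to zero. -/
def SpreadingOut {k₀ k : Type} [Field k₀] [Field k] {E : Type} [Field E] {Γ₁ Γ : Type} [Group Γ₁]
    [Group Γ] (T₀ : HomologyData k₀ E Γ₁) (T : HomologyData k E Γ) : Prop :=
  ∀ (d i : ℕ) (X : Sch k), IsSmoothProjective d X → ∃ (j : ℕ) (Y : Sch k₀) (r : T₀.H j Y →ₗ[E] T.H i X),
    IsVariety Y ∧ (∀ v : T.H i X, T.IsGenInv v → ∃ y : T₀.H j Y, T₀.IsGenInv y ∧ r y = v) ∧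
    ∀ z, PtDim j Y z → r (T₀.cl j Y z) = 0 ∨ ∃ x, PtDim i X x ∧ r (T₀.cl j Y z) = T.cl i X x

/-- For smooth projective varieties the theories `T` and `T'` have the same intersection numbers of
cycles and the same orders of the L-functions. -/
def SameNumbers {k : Type} [Field k] {E E' : Type} [Field E] [Field E'] {Γ : Type} [Group Γ]
    (T : HomologyData k E Γ) (T' : HomologyData k E' Γ) : Prop :=
  ∀ (d i : ℕ) (X : Sch k), IsSmoothProjective d X → T.ordL i X = T'.ordL i X ∧
    (i ≤ d → ∀ x y, PtDim i X x → PtDim (d - i) X y → ∃ m : ℤ,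
      T.num d i X (T.cl i X x) (T.cl (d - i) X y) = m ∧
      T'.num d i X (T'.cl i X x) (T'.cl (d - i) X y) = m)

/-- The restriction of the conjectures to the varieties `U` which are complements of closures of finite
sets of points of dimension `i` in smooth projective varieties of pure dimension at most `2 i`, and for
which the classes of all cycles of dimension `i` are zero: part (a), which says that there are no
invariants, or the second conjecture, which says that the L-function has no pole, holds. -/
def OpenHypothesis {k : Type} [Field k] {E : Type} [Field E] {Γ : Type} [Group Γ]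
    (T : HomologyData k E Γ) : Prop :=
  ∀ (d i : ℕ) (X : Sch k), IsSmoothProjective d X → d ≤ 2 * i →
    ∀ (U : Sch k) (j : Mor U X), IsCycleComplement i j → (∀ x, PtDim i U x → T.cl i U x = 0) →
      T.PartA i U ∨ T.PoleOrder i U

end Pool.Agent.K9h37.TS
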