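import Pool.Agent.K9h37.TS.Indep
import Pool.Agent.K9h37.TS.Base
import Pool.Agent.K9h37.TS.All

/-!
The final theorem: part (a) over finite fields for open varieties implies everything in characteristic
`p`.
-/

set_option autoImplicit false

open CategoryTheory CategoryTheory.Limits AlgebraicGeometry

namespace Pool.Agent.K9h37.TS

theorem main (p : ℕ) [Fact p.Prime] (ℓ₀ ℓ : ℕ) [Fact ℓ₀.Prime] [Fact ℓ.Prime]
    (k : Type) [Field k] (Γ₁ Γ : Type) [Group Γ₁] [Group Γ]
    (T₀ : Homology (ZMod p) ℚ_[ℓ₀] Γ₁) (T₁ : Homology (ZMod p) ℚ_[ℓ] Γ₁)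
    (T : Homology k ℚ_[ℓ] Γ) (hgeo : T₀.geo = ⊥)
    (hsame : SameNumbers T₀.toHomologyData T₁.toHomologyData)
    (hspread : SpreadingOut T₁.toHomologyData T.toHomologyData)
    (hAlt₀ : Alterations (ZMod p)) (hComp₀ : Compactifications (ZMod p))
    (hAlt : Alterations k) (hComp : Compactifications k)
    (hA : OpenHypothesis T₀.toHomologyData)
    (i : ℕ) (X : Sch k) (hX : IsVariety X) : T.PartA i X ∧ T.PartB i X ∧ T.PoleOrder i X := by
  have h₁ : ∀ (d i : ℕ) (X : Sch (ZMod p)), IsVariety X → IsSmoothProjective d X →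
      T₀.Full i X := by
    intro d i X hX hd
    have h1 : ∀ i, d ≤ 2 * i → T₀.Full i X := fun i hi =>
      Homology.full_of_open hgeo hX (fun s hs U j hj hr => hA d i X hd hi U j ⟨hj, s, hs, hr⟩)
    rcases le_total d (2 * i) with h | h
    · exact h1 i h
    · exact Homology.full_lefschetz hX hd h (h1 (d - i) (by omega))
  have h₂ : ∀ (d i : ℕ) (X : Sch (ZMod p)), IsVariety X → IsSmoothProjective d X →
      T₁.Full i X := fun d i X hX hd =>
    Homology.full_indep hX hd (hsame d i X hd).2 (hsame d i X hd).1 (h₁ d i X hX hd)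
      (h₁ d (d - i) X hX hd)
  have h₃ : ∀ (i : ℕ) (X : Sch (ZMod p)), IsVariety X → T₁.Full i X := fun i X hX =>
    (Homology.all_case hAlt₀ hComp₀ h₂ i X hX).1
  exact Homology.conj hX (Homology.all_case hAlt hComp (fun d i X _ hd =>
    full_of_spreading hspread h₃ d i X hd) i X hX)

end Pool.Agent.K9h37.TS
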