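import Pool.Agent.K9h37.TS.Main

/-!
Independence of the prime: from one prime to another.
-/

set_option autoImplicit false

open CategoryTheory CategoryTheory.Limits AlgebraicGeometry
open scoped TensorProduct

namespace Pool.Agent.K9h37.TS

/-- integral vectors which are linearly independent over one field of characteristic zero are
linearly independent over all of them -/
theorem transfer {ι t : Type*} [Fintype ι] [Fintype t] (m : ι → t → ℤ) (E E' : Type*) [Field E]
    [Field E'] [CharZero E] [CharZero E']
    (h : ∀ c : ι → E, (∀ y, ∑ a, c a * (m a y : E) = 0) → c = 0)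
    (c : ι → E') (hc : ∀ y, ∑ a, c a * (m a y : E') = 0) : c = 0 := by
  classical
  let A : (ι → ℤ) →ₗ[ℤ] (t → ℤ) :=
    { toFun := fun c y => ∑ a, c a * m a y
      map_add' := fun c d => by
        funext y
        simp only [Pi.add_apply, add_mul, Finset.sum_add_distrib]
      map_smul' := fun r c => by
        funext y
        simp only [Pi.smul_apply, smul_eq_mul, RingHom.id_apply, Finset.mul_sum, mul_assoc] }
  have hA : Function.Injective A := by
    rw [injective_iff_map_eq_zero]
    intro d hd
    have h1 : (fun a => ((d a : ℤ) : E)) = 0 := by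
      apply h
      intro y
      have h2 : A d y = 0 := by rw [hd]; rfl
      have h3 : ((∑ a, d a * m a y : ℤ) : E) = 0 := by
        have : (∑ a, d a * m a y : ℤ) = 0 := h2
        rw [this, Int.cast_zero]
      rw [← h3]
      push_cast
      rfl
    funext a
    have h2 := congrFun h1 a
    have h3 : ((d a : ℤ) : E) = 0 := h2
    exact_mod_cast h3
  have hl := Module.Flat.lTensor_preserves_injective_linearMap (M := E') A hA
  let s : E' ⊗[ℤ] (ι → ℤ) := ∑ a, c a ⊗ₜ (Pi.single a 1)
  have h1 : TensorProduct.piScalarRight ℤ ℤ E' ι s = c := by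
    funext b
    rw [map_sum, Finset.sum_apply, Finset.sum_eq_single b]
    · rw [TensorProduct.piScalarRight_apply, TensorProduct.piScalarRightHom_tmul]
      simp
    · intro a _ hab
      rw [TensorProduct.piScalarRight_apply, TensorProduct.piScalarRightHom_tmul]
      simp [Pi.single_apply, hab.symm]
    · intro hb
      exact absurd (Finset.mem_univ b) hb
  have h2 : LinearMap.lTensor E' A s = 0 := by
    apply (LinearEquiv.map_eq_zero_iff (TensorProduct.piScalarRight ℤ ℤ E' t)).1
    funext y
    rw [map_sum, map_sum, Finset.sum_apply]
    rw [Pi.zero_apply, ← hc y]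
    refine Finset.sum_congr rfl (fun a _ => ?_)
    rw [LinearMap.lTensor_tmul, TensorProduct.piScalarRight_apply,
      TensorProduct.piScalarRightHom_tmul]
    have : A (Pi.single a 1) y = m a y := by
      change ∑ b, (Pi.single a 1 : ι → ℤ) b * m b y = m a y
      rw [Finset.sum_eq_single a]
      · simp
      · intro b _ hb
        simp [Pi.single_apply, hb]
      · intro ha
        exact absurd (Finset.mem_univ a) ha
    change (A (Pi.single a 1) y) • c a = _
    rw [this, zsmul_eq_mul, mul_comm]
  have h3 : s = 0 := hl (by rw [h2, map_zero])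
  rw [← h1, h3, map_zero]

namespace Homology

variable {k : Type} [Field k] {E E' : Type} [Field E] [Field E'] {Γ : Type} [Group Γ]
  {T : Homology k E Γ} {T' : Homology k E' Γ}

theorem full_indep [CharZero E] [CharZero E'] {d i : ℕ} {X : Sch k} (hX : IsVariety X)
    (hd : IsSmoothProjective d X)
    (hint : i ≤ d → ∀ x y, PtDim i X x → PtDim (d - i) X y →
      ∃ m : ℤ, T.pairing d i X (T.cl i X x) (T.cl (d - i) X y) = m ∧
        T'.pairing d i X (T'.cl i X x) (T'.cl (d - i) X y) = m)
    (hord : T.ordL i X = T'.ordL i X) (hf : T.Full i X) (hf' : T.Full (d - i) X) :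
    T'.Full i X := by
  classical
  by_cases hid : i ≤ d
  swap
  · have := T'.zero_above d i X hd (not_le.1 hid)
    intro v n _ _
    rw [Subsingleton.elim v 0]
    exact Submodule.zero_mem _
  have := T.finite i X hX
  have := T.finite (d - i) X hX
  have := T'.finite i X hX
  -- a basis of the space of the classes
  obtain ⟨b, hb1, hb2, hb3⟩ := exists_linearIndependent E
    {c : T.H i X | ∃ x, PtDim i X x ∧ T.cl i X x = c}
  have hbfin : Finite b := hb3.finite
  have : Fintype b := Fintype.ofFinite b
  choose x hx1 hx2 using fun c : b => hb1 c.2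
  obtain ⟨t, ht1, ht2⟩ := (Submodule.fg_span_iff_fg_span_finset_subset (R := E)
    {c : T.H (d - i) X | ∃ y, PtDim (d - i) X y ∧ T.cl (d - i) X y = c}).1
    (IsNoetherian.noetherian _)
  choose y hy1 hy2 using fun c : t => ht1 c.2
  choose m hm1 hm2 using fun (a : b) (c : t) => hint hid (x a) (y c) (hx1 a) (hy1 c)
  -- independence for the first prime
  have hE : ∀ c : b → E, (∀ y, ∑ a, c a * (m a y : E) = 0) → c = 0 := by
    intro c hc
    have h1 : ∑ a, c a • (a : T.H i X) = 0 := by
      refine perp hX hd hid hf' _ ?_ ?_
      · intro g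
        refine T.S_inv hX _ ?_ g
        refine Submodule.sum_mem _ (fun a _ => Submodule.smul_mem _ _ ?_)
        exact Submodule.subset_span (hb1 a.2)
      · intro w hw
        change w ∈ Submodule.span E _ at hw
        rw [ht2] at hw
        induction hw using Submodule.span_induction with
        | mem w hw =>
          have h2 := hc ⟨w, hw⟩
          rw [map_sum, LinearMap.sum_apply, ← h2]
          refine Finset.sum_congr rfl (fun a _ => ?_)
          rw [map_smul, LinearMap.smul_apply, ← hm1, hx2, hy2, smul_eq_mul]
        | zero => exact map_zero _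
        | add a b _ _ ha hb => rw [map_add, ha, hb, add_zero]
        | smul e a _ ha => rw [map_smul, ha, smul_zero]
    funext a
    exact (Fintype.linearIndependent_iff.1 hb3) c h1 a
  -- independence for the second prime
  have hE' : LinearIndependent E' (fun a : b => T'.cl i X (x a)) := by
    rw [Fintype.linearIndependent_iff]
    intro c hc a
    have h1 := transfer m E E' hE c (by
      intro z
      have h2 : T'.pairing d i X (∑ a, c a • T'.cl i X (x a)) (T'.cl (d - i) X (y z)) = 0 := by
        rw [hc, map_zero]; rfl
      rw [map_sum, LinearMap.sum_apply] at h2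
      rw [← h2]
      refine Finset.sum_congr rfl (fun a _ => ?_)
      rw [map_smul, LinearMap.smul_apply, hm2, smul_eq_mul])
    rw [h1]; rfl
  -- the dimensions
  have d1 : Fintype.card b ≤ Module.finrank E' (T'.S i X) := by
    have h1 : LinearIndependent E' (fun a : b => (⟨T'.cl i X (x a), T'.cl_mem_S (hx1 a)⟩ :
        T'.S i X)) := by
      apply LinearIndependent.of_comp (T'.S i X).subtype
      exact hE'
    exact h1.fintype_card_le_finrank
  have d2 : Module.finrank E (T.S i X) = Fintype.card b := by
    have h1 : T.S i X = Submodule.span E (Set.range (fun a : b => (a : T.H i X))) := by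
      rw [Subtype.range_coe]
      exact hb2.symm
    rw [h1]
    exact finrank_span_eq_card hb3
  have d3 : Module.finrank E (T.S i X) = Module.finrank E (T.data i X hX).Gen := by
    have : T.S i X = (T.data i X hX).Gen := le_antisymm (T.S_le_Gen hX) ((T.full_iff hX).1 hf)
    rw [this]
  have d4 : Module.finrank E (T.data i X hX).Gen = Module.finrank E' (T'.data i X hX).Gen := by
    have h1 := T.ordL_eq i X hX (T.data i X hX).Gen (fun v => Iff.rfl)
    have h2 := T'.ordL_eq i X hX (T'.data i X hX).Gen (fun v => Iff.rfl)
    rw [h1, h2] at hord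
    have := neg_injective hord
    exact_mod_cast this
  have d5 : T'.S i X = (T'.data i X hX).Gen := by
    refine Submodule.eq_of_le_of_finrank_le (T'.S_le_Gen hX) ?_
    rw [← d4, ← d3, d2]
    exact d1
  rw [T'.full_iff hX, ← d5]

end Homology

end Pool.Agent.K9h37.TS
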