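import Mathlib

/-!
Linear algebra: the functor of the generalised invariants is exact.
-/

set_option autoImplicit false

namespace Pool.Agent.K9h37.TS

section

variable {E : Type*} [Field E] {M : Type*} [AddCommGroup M] [Module E M] {Γ : Type*} [Group Γ]

/-- the data of a representation with a subspace `W`, the subgroup `geo` and the element `fr` -/
structure Data (E : Type*) [Field E] (M : Type*) [AddCommGroup M] [Module E M] (Γ : Type*) [Group Γ]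
    (geo : Subgroup Γ) (fr : Γ) where
  ρ : Γ →* Module.End E M
  W : Submodule E M
  normal : geo.Normal
  stable : ∀ g, ∀ v ∈ W, ρ g v ∈ W
  wt : ∀ (v : M) (n : ℕ), (∀ g ∈ geo, ρ g v = v) → ((ρ fr - 1) ^ n) v = 0 → v ∈ W
  ss : ∀ N ≤ W, (∀ g ∈ geo, ∀ v ∈ N, ρ g v ∈ N) →
    ∃ C ≤ W, (∀ g ∈ geo, ∀ v ∈ C, ρ g v ∈ C) ∧ N ⊓ C = ⊥ ∧ N ⊔ C = W

variable {geo : Subgroup Γ} {fr : Γ}

namespace Data

variable (D : Data E M Γ geo fr)

/-- the invariants of `geo` in `W` -/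
def V : Submodule E M where
  carrier := {v | v ∈ D.W ∧ ∀ g ∈ geo, D.ρ g v = v}
  zero_mem' := ⟨D.W.zero_mem, fun g _ => map_zero _⟩
  add_mem' h h' := ⟨D.W.add_mem h.1 h'.1, fun g hg => by rw [map_add, h.2 g hg, h'.2 g hg]⟩
  smul_mem' c v h := ⟨D.W.smul_mem c h.1, fun g hg => by rw [map_smul, h.2 g hg]⟩

lemma V_stable (v : M) (hv : v ∈ D.V) : (D.ρ fr - 1) v ∈ D.V := by
  have h1 : D.ρ fr v ∈ D.V := by
    refine ⟨D.stable fr v hv.1, fun g hg => ?_⟩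
    have h2 : fr⁻¹ * g * fr ∈ geo := by
      have := D.normal.conj_mem g hg fr⁻¹
      simpa using this
    have h3 := hv.2 _ h2
    have h4 : D.ρ g (D.ρ fr v) = D.ρ fr (D.ρ (fr⁻¹ * g * fr) v) := by
      rw [← Module.End.mul_apply, ← Module.End.mul_apply, ← map_mul, ← map_mul]
      congr 2
      group
    rw [h4, h3]
  exact D.V.sub_mem h1 hv

/-- the generalised invariants -/
def Gen : Submodule E M where
  carrier := {v | (∀ g ∈ geo, D.ρ g v = v) ∧ ∃ n : ℕ, ((D.ρ fr - 1) ^ n) v = 0}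
  zero_mem' := ⟨fun g _ => map_zero _, 0, map_zero _⟩
  add_mem' := by
    rintro v w ⟨h1, n, hn⟩ ⟨h2, m, hm⟩
    refine ⟨fun g hg => by rw [map_add, h1 g hg, h2 g hg], n + m, ?_⟩
    rw [map_add, pow_add]
    have e1 : ((D.ρ fr - 1) ^ n * (D.ρ fr - 1) ^ m) w = 0 := by
      rw [Module.End.mul_apply, hm, map_zero]
    have e2 : ((D.ρ fr - 1) ^ n * (D.ρ fr - 1) ^ m) v = 0 := by
      rw [← pow_add, add_comm, pow_add, Module.End.mul_apply, hn, map_zero]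
    rw [e1, e2, add_zero]
  smul_mem' := by
    rintro c v ⟨h1, n, hn⟩
    exact ⟨fun g hg => by rw [map_smul, h1 g hg], n, by rw [map_smul, hn, smul_zero]⟩

lemma mem_Gen (v : M) : v ∈ D.Gen ↔ (∀ g ∈ geo, D.ρ g v = v) ∧ ∃ n : ℕ, ((D.ρ fr - 1) ^ n) v = 0 :=
  Iff.rfl

lemma Gen_le_W : D.Gen ≤ D.W := fun v hv => by
  obtain ⟨h1, n, hn⟩ := hv
  exact D.wt v n h1 hn

lemma Gen_le_V : D.Gen ≤ D.V := fun v hv => ⟨D.Gen_le_W hv, hv.1⟩

/-- the differences -/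
def Dif : Submodule E M := Submodule.span E {w | ∃ g ∈ geo, ∃ v ∈ D.W, D.ρ g v - v = w}

/-- the divisible part -/
def Rng : Submodule E M where
  carrier := {r | r ∈ D.V ∧ ∀ N : ℕ, ∃ s ∈ D.V, ((D.ρ fr - 1) ^ N) s = r}
  zero_mem' := ⟨D.V.zero_mem, fun N => ⟨0, D.V.zero_mem, map_zero _⟩⟩
  add_mem' := by
    rintro v w ⟨h1, h2⟩ ⟨h3, h4⟩
    refine ⟨D.V.add_mem h1 h3, fun N => ?_⟩
    obtain ⟨s, hs, es⟩ := h2 N
    obtain ⟨t, ht, et⟩ := h4 N
    exact ⟨s + t, D.V.add_mem hs ht, by rw [map_add, es, et]⟩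
  smul_mem' := by
    rintro c v ⟨h1, h2⟩
    refine ⟨D.V.smul_mem c h1, fun N => ?_⟩
    obtain ⟨s, hs, es⟩ := h2 N
    exact ⟨c • s, D.V.smul_mem c hs, by rw [map_smul, es]⟩

/-- the complement of the generalised invariants -/
def Cpl : Submodule E M := D.Dif ⊔ D.Rng

lemma Dif_le_W : D.Dif ≤ D.W := by
  refine Submodule.span_le.2 ?_
  rintro w ⟨g, hg, v, hv, rfl⟩
  exact D.W.sub_mem (D.stable g v hv) hv

lemma Dif_stable : ∀ g ∈ geo, ∀ v ∈ D.Dif, D.ρ g v ∈ D.Dif := by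
  intro g hg v hv
  have h1 : D.ρ g v - v ∈ D.Dif := Submodule.subset_span ⟨g, hg, v, D.Dif_le_W hv, rfl⟩
  have h2 := D.Dif.add_mem h1 hv
  rwa [sub_add_cancel] at h2

/-- `W = Dif + V` -/
lemma W_le : D.W ≤ D.Dif ⊔ D.V := by
  obtain ⟨C, hC, hCs, h1, h2⟩ := D.ss D.Dif D.Dif_le_W D.Dif_stable
  rw [← h2]
  refine sup_le le_sup_left (le_trans (fun c hc => ?_) le_sup_right)
  refine ⟨hC hc, fun g hg => ?_⟩
  have h3 : D.ρ g c - c ∈ D.Dif ⊓ C :=
    ⟨Submodule.subset_span ⟨g, hg, c, hC hc, rfl⟩, C.sub_mem (hCs g hg c hc) hc⟩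
  rw [h1, Submodule.mem_bot] at h3
  exact sub_eq_zero.1 h3

lemma Dif_inf_V (v : M) (h1 : v ∈ D.Dif) (h2 : v ∈ D.V) : v = 0 := by
  obtain ⟨C, hC, hCs, h3, h4⟩ := D.ss D.V (fun v hv => hv.1)
    (fun g hg v hv => by rw [hv.2 g hg]; exact hv)
  have h5 : D.Dif ≤ C := by
    refine Submodule.span_le.2 ?_
    rintro w ⟨g, hg, u, hu, rfl⟩
    rw [← h4] at hu
    obtain ⟨a, ha, c, hc, rfl⟩ := Submodule.mem_sup.1 hu
    have e : D.ρ g (a + c) - (a + c) = D.ρ g c - c := by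
      rw [map_add, ha.2 g hg]; abel
    rw [e]
    exact C.sub_mem (hCs g hg c hc) hc
  have h6 : v ∈ D.V ⊓ C := ⟨h2, h5 h1⟩
  rw [h3, Submodule.mem_bot] at h6
  exact h6

section fin

variable [FiniteDimensional E M]

/-- the endomorphism of `V` -/
noncomputable def f : Module.End E D.V := (D.ρ fr - 1).restrict D.V_stable

lemma f_pow (n : ℕ) (v : D.V) : (((D.f ^ n) v : D.V) : M) = ((D.ρ fr - 1) ^ n) v := by
  induction n generalizing v with
  | zero => rfl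
  | succ n ih =>
    rw [pow_succ, pow_succ, Module.End.mul_apply, Module.End.mul_apply, ih]
    rfl

lemma fitting : IsCompl (⨆ n, LinearMap.ker (D.f ^ n)) (⨅ n, LinearMap.range (D.f ^ n)) :=
  LinearMap.isCompl_iSup_ker_pow_iInf_range_pow D.f

lemma mem_ker_iff (v : D.V) : v ∈ (⨆ n, LinearMap.ker (D.f ^ n)) ↔ (v : M) ∈ D.Gen := by
  rw [Submodule.mem_iSup_of_directed]
  · constructor
    · rintro ⟨n, hn⟩
      refine ⟨v.2.2, n, ?_⟩
      rw [← D.f_pow, LinearMap.mem_ker.1 hn]; rfl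
    · rintro ⟨h, n, hn⟩
      refine ⟨n, LinearMap.mem_ker.2 (Subtype.ext ?_)⟩
      rw [D.f_pow, hn]; rfl
  · refine Monotone.directed_le ?_
    intro a b hab x hx
    obtain ⟨c, rfl⟩ := Nat.exists_eq_add_of_le hab
    rw [LinearMap.mem_ker] at hx ⊢
    rw [add_comm, pow_add, Module.End.mul_apply, hx, map_zero]

lemma mem_range_iff (v : D.V) : v ∈ (⨅ n, LinearMap.range (D.f ^ n)) ↔ (v : M) ∈ D.Rng := by
  rw [Submodule.mem_iInf]
  constructor
  · intro h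
    refine ⟨v.2, fun N => ?_⟩
    obtain ⟨s, hs⟩ := h N
    exact ⟨s, s.2, by rw [← D.f_pow, hs]⟩
  · rintro ⟨_, h⟩ N
    obtain ⟨s, hs, e⟩ := h N
    exact ⟨⟨s, hs⟩, Subtype.ext (by rw [D.f_pow]; exact e)⟩

/-- every element of `W` is the sum of an element of `Gen` and an element of `Cpl` -/
lemma cover (v : M) (hv : v ∈ D.W) : ∃ g ∈ D.Gen, ∃ c ∈ D.Cpl, g + c = v := by
  obtain ⟨a, ha, b, hb, rfl⟩ := Submodule.mem_sup.1 (D.W_le hv)
  have h1 : (⟨b, hb⟩ : D.V) ∈ (⨆ n, LinearMap.ker (D.f ^ n)) ⊔ (⨅ n, LinearMap.range (D.f ^ n)) := by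
    rw [D.fitting.sup_eq_top]; trivial
  obtain ⟨x, hx, y, hy, e⟩ := Submodule.mem_sup.1 h1
  have e' : (x : M) + y = b := congrArg Subtype.val e
  refine ⟨x, (D.mem_ker_iff x).1 hx, a + y,
    Submodule.add_mem_sup ha ((D.mem_range_iff y).1 hy), ?_⟩
  rw [← e']; abel

lemma disj (v : M) (h1 : v ∈ D.Gen) (h2 : v ∈ D.Cpl) : v = 0 := by
  obtain ⟨a, ha, b, hb, rfl⟩ := Submodule.mem_sup.1 h2
  have h3 : a ∈ D.V := by
    have := D.V.sub_mem (D.Gen_le_V h1) hb.1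
    rwa [add_sub_cancel_right] at this
  have h4 : a = 0 := D.Dif_inf_V a ha h3
  subst h4
  rw [zero_add] at h1 ⊢
  have h5 : (⟨b, hb.1⟩ : D.V) ∈ (⨆ n, LinearMap.ker (D.f ^ n)) ⊓ (⨅ n, LinearMap.range (D.f ^ n)) :=
    ⟨(D.mem_ker_iff _).2 h1, (D.mem_range_iff _).2 hb⟩
  rw [D.fitting.inf_eq_bot, Submodule.mem_bot] at h5
  exact congrArg Subtype.val h5

end fin

/-- morphisms -/
structure IsMor {M' : Type*} [AddCommGroup M'] [Module E M'] (D : Data E M Γ geo fr)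
    (D' : Data E M' Γ geo fr) (φ : M →ₗ[E] M') : Prop where
  eq : ∀ g v, φ (D.ρ g v) = D'.ρ g (φ v)
  W : ∀ v ∈ D.W, φ v ∈ D'.W

variable {M' : Type*} [AddCommGroup M'] [Module E M'] {D} {D' : Data E M' Γ geo fr}
  {φ ψ : M →ₗ[E] M'}

lemma IsMor.sub (h : IsMor D D' φ) (h' : IsMor D D' ψ) : IsMor D D' (φ - ψ) :=
  ⟨fun g v => by rw [LinearMap.sub_apply, LinearMap.sub_apply, map_sub, h.eq, h'.eq],
    fun v hv => by rw [LinearMap.sub_apply]; exact D'.W.sub_mem (h.W v hv) (h'.W v hv)⟩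

lemma IsMor.pow (h : IsMor D D' φ) (n : ℕ) (v : M) :
    φ (((D.ρ fr - 1) ^ n) v) = ((D'.ρ fr - 1) ^ n) (φ v) := by
  induction n generalizing v with
  | zero => rfl
  | succ n ih =>
    rw [pow_succ, pow_succ, Module.End.mul_apply, Module.End.mul_apply, ih]
    congr 1
    rw [LinearMap.sub_apply, LinearMap.sub_apply, map_sub, h.eq]
    rfl

lemma IsMor.V (h : IsMor D D' φ) (v : M) (hv : v ∈ D.V) : φ v ∈ D'.V :=
  ⟨h.W v hv.1, fun g hg => by rw [← h.eq, hv.2 g hg]⟩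

lemma IsMor.Gen (h : IsMor D D' φ) (v : M) (hv : v ∈ D.Gen) : φ v ∈ D'.Gen := by
  obtain ⟨h1, n, hn⟩ := hv
  exact ⟨fun g hg => by rw [← h.eq, h1 g hg], n, by rw [← h.pow, hn, map_zero]⟩

lemma IsMor.Cpl (h : IsMor D D' φ) (v : M) (hv : v ∈ D.Cpl) : φ v ∈ D'.Cpl := by
  obtain ⟨a, ha, b, hb, rfl⟩ := Submodule.mem_sup.1 hv
  rw [map_add]
  refine Submodule.add_mem_sup ?_ ?_
  · have h1 : D.Dif ≤ D'.Dif.comap φ := by
      refine Submodule.span_le.2 ?_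
      rintro w ⟨g, hg, v, hv, rfl⟩
      refine Submodule.subset_span ⟨g, hg, φ v, h.W v hv, ?_⟩
      rw [map_sub, h.eq]
    exact h1 ha
  · refine ⟨h.V b hb.1, fun N => ?_⟩
    obtain ⟨s, hs, e⟩ := hb.2 N
    exact ⟨φ s, h.V s hs, by rw [← h.pow, e]⟩

/-- a generalised invariant which is the image of an element of weight zero is the image of a
generalised invariant -/
theorem IsMor.lift [FiniteDimensional E M] [FiniteDimensional E M'] (h : IsMor D D' φ)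
    (v : M') (hv : v ∈ D'.Gen) (hs : ∃ w ∈ D.W, φ w = v) : ∃ w ∈ D.Gen, φ w = v := by
  obtain ⟨w, hw, rfl⟩ := hs
  obtain ⟨g, hg, c, hc, rfl⟩ := D.cover w hw
  refine ⟨g, hg, ?_⟩
  have h1 : φ c = 0 := by
    refine D'.disj _ ?_ (h.Cpl c hc)
    have := D'.Gen.sub_mem hv (h.Gen g hg)
    rwa [map_add, add_sub_cancel_left] at this
  rw [map_add, h1, add_zero]

/-- surjectivity on the parts of weight zero implies surjectivity on the generalised invariants -/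
theorem IsMor.surj [FiniteDimensional E M] [FiniteDimensional E M'] (h : IsMor D D' φ)
    (hs : ∀ v ∈ D'.W, ∃ w ∈ D.W, φ w = v) (v : M') (hv : v ∈ D'.Gen) : ∃ w ∈ D.Gen, φ w = v :=
  h.lift v hv (hs v (D'.Gen_le_W hv))

end Data

end

end Pool.Agent.K9h37.TS
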