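import Mathlib

/-!
Linear algebra: finitely generated subgroups of a vector space over a field of characteristic zero
which are lattices (over `ℤ`) in their span.
-/

set_option autoImplicit false

open scoped TensorProduct

namespace Pool.Agent.K9h37.TS

section

variable (E : Type*) [Field E] {M : Type*} [AddCommGroup M] [Module E M]

/-- the map `E ⊗ B → M` -/
noncomputable def tm (B : AddSubgroup M) : E ⊗[ℤ] B →ₗ[ℤ] M :=
  TensorProduct.lift (LinearMap.mk₂ ℤ (fun (e : E) (b : B) => e • (b : M))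
    (fun _ _ _ => add_smul _ _ _) (fun _ _ _ => smul_assoc _ _ _)
    (fun _ _ _ => smul_add _ _ _) (fun c e b => smul_comm e c (b : M)))

variable {E}

@[simp] lemma tm_tmul (B : AddSubgroup M) (e : E) (b : B) : tm E B (e ⊗ₜ b) = e • (b : M) := rfl

lemma tm_smul (B : AddSubgroup M) (e : E) (t : E ⊗[ℤ] B) : tm E B (e • t) = e • tm E B t := by
  induction t using TensorProduct.induction_on with
  | zero => rw [smul_zero, map_zero, smul_zero]
  | tmul x y => rw [TensorProduct.smul_tmul', tm_tmul, tm_tmul, smul_assoc]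
  | add x y hx hy => rw [smul_add, map_add, map_add, hx, hy, smul_add]

lemma tm_mem (B : AddSubgroup M) (t : E ⊗[ℤ] B) : tm E B t ∈ Submodule.span E (B : Set M) := by
  induction t using TensorProduct.induction_on with
  | zero => rw [map_zero]; exact Submodule.zero_mem _
  | tmul x y => rw [tm_tmul]; exact Submodule.smul_mem _ _ (Submodule.subset_span y.2)
  | add x y hx hy => rw [map_add]; exact Submodule.add_mem _ hx hy

lemma mem_span_iff (B : AddSubgroup M) (v : M) :
    v ∈ Submodule.span E (B : Set M) ↔ ∃ t : E ⊗[ℤ] B, tm E B t = v := by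
  constructor
  · intro hv
    induction hv using Submodule.span_induction with
    | mem x hx => exact ⟨(1 : E) ⊗ₜ ⟨x, hx⟩, by rw [tm_tmul, one_smul]⟩
    | zero => exact ⟨0, map_zero _⟩
    | add x y _ _ hx hy =>
      obtain ⟨s, rfl⟩ := hx
      obtain ⟨t, rfl⟩ := hy
      exact ⟨s + t, map_add _ _ _⟩
    | smul e x _ hx =>
      obtain ⟨s, rfl⟩ := hx
      exact ⟨e • s, tm_smul B e s⟩
  · rintro ⟨t, rfl⟩
    exact tm_mem B t

variable (E) in
/-- `B` is finitely generated and `E ⊗ B → M` is injective -/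
def Rat (B : AddSubgroup M) : Prop := Module.Finite ℤ B ∧ Function.Injective (tm E B)

variable [CharZero E] {M₀ : Type*} [AddCommGroup M₀] [Module E M₀]

omit [CharZero E] in
lemma map_tm (f : M₀ →ₗ[E] M) (B₀ : AddSubgroup M₀) (B : AddSubgroup M) (φ : B₀ →ₗ[ℤ] B)
    (hφ : ∀ b : B₀, (φ b : M) = f b) (t : E ⊗[ℤ] B₀) :
    tm E B (LinearMap.lTensor E φ t) = f (tm E B₀ t) := by
  induction t using TensorProduct.induction_on with
  | zero => rw [map_zero, map_zero, map_zero, map_zero]
  | tmul x y => rw [LinearMap.lTensor_tmul, tm_tmul, tm_tmul, map_smul, hφ]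
  | add x y hx hy => rw [map_add, map_add, map_add, map_add, hx, hy]

omit [CharZero E] in
lemma lTensor_smul {B₀ : AddSubgroup M₀} {B : AddSubgroup M} (φ : B₀ →ₗ[ℤ] B) (e : E)
    (t : E ⊗[ℤ] B₀) : LinearMap.lTensor E φ (e • t) = e • LinearMap.lTensor E φ t := by
  induction t using TensorProduct.induction_on with
  | zero => rw [smul_zero, map_zero, smul_zero]
  | tmul x y => rw [TensorProduct.smul_tmul', LinearMap.lTensor_tmul, LinearMap.lTensor_tmul,
      TensorProduct.smul_tmul']
  | add x y hx hy => rw [smul_add, map_add, map_add, hx, hy, smul_add]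

theorem rat_of_coker (f : M₀ →ₗ[E] M) (B₀ : AddSubgroup M₀) (B : AddSubgroup M)
    (h1 : ∀ b ∈ B₀, f b ∈ B) (n : ℕ) (hn : 0 < n) (h2 : ∀ b ∈ B, ∃ b₀ ∈ B₀, f b₀ = n • b)
    (h3 : ∀ w ∈ Submodule.span E (B₀ : Set M₀), f w = 0 →
      w ∈ Submodule.span E {b | b ∈ B₀ ∧ f b = 0})
    (hR : Rat E B₀) : Rat E B := by
  obtain ⟨hF, hI⟩ := hR
  have hnE : (n : E) ≠ 0 := by exact_mod_cast hn.ne'
  have hinj : ∀ x : M, (n : ℕ) • x = 0 → x = 0 := by
    intro x hx
    rw [← Nat.cast_smul_eq_nsmul E] at hx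
    exact (smul_eq_zero.1 hx).resolve_left hnE
  refine ⟨?_, ?_⟩
  · -- finite generation
    let B' : AddSubgroup M := B₀.map (f : M₀ →+ M)
    let ψ₀ : B₀ →+ B' :=
      { toFun := fun b => ⟨f b, ⟨b, b.2, rfl⟩⟩
        map_zero' := Subtype.ext (map_zero f)
        map_add' := fun a b => Subtype.ext (map_add f _ _) }
    have hs : Function.Surjective ψ₀.toIntLinearMap := by
      rintro ⟨_, b, hb, rfl⟩
      exact ⟨⟨b, hb⟩, rfl⟩
    have hF' : Module.Finite ℤ B' := Module.Finite.of_surjective ψ₀.toIntLinearMap hs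
    let ψ : B →+ B' :=
      { toFun := fun b => ⟨n • (b : M), by
          obtain ⟨b₀, hb₀, e⟩ := h2 b b.2
          exact ⟨b₀, hb₀, e⟩⟩
        map_zero' := Subtype.ext (nsmul_zero n)
        map_add' := fun a b => Subtype.ext (nsmul_add _ _ _) }
    refine Module.Finite.of_injective ψ.toIntLinearMap ?_
    intro a b hab
    have e : n • (a : M) = n • (b : M) := congrArg Subtype.val hab
    refine Subtype.ext (sub_eq_zero.1 (hinj _ ?_))
    rw [nsmul_sub, e, sub_self]
  · -- injectivity
    let φ₀ : B₀ →+ B :=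
      { toFun := fun b => ⟨f b, h1 b b.2⟩
        map_zero' := Subtype.ext (map_zero f)
        map_add' := fun a b => Subtype.ext (map_add f _ _) }
    let φ : B₀ →ₗ[ℤ] B := φ₀.toIntLinearMap
    have hφ : ∀ b : B₀, (φ b : M) = f b := fun b => rfl
    have hlift : ∀ t : E ⊗[ℤ] B, ∃ s : E ⊗[ℤ] B₀, LinearMap.lTensor E φ s = (n : ℕ) • t := by
      intro t
      induction t using TensorProduct.induction_on with
      | zero => exact ⟨0, by rw [map_zero, nsmul_zero]⟩
      | tmul e b =>
        obtain ⟨b₀, hb₀, h⟩ := h2 b b.2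
        refine ⟨e ⊗ₜ ⟨b₀, hb₀⟩, ?_⟩
        rw [LinearMap.lTensor_tmul, ← TensorProduct.tmul_smul]
        congr 1
        exact Subtype.ext h
      | add x y hx hy =>
        obtain ⟨s, hs⟩ := hx
        obtain ⟨t, ht⟩ := hy
        exact ⟨s + t, by rw [map_add, hs, ht, nsmul_add]⟩
    rw [injective_iff_map_eq_zero]
    intro t ht
    obtain ⟨s, hs⟩ := hlift t
    have e1 : f (tm E B₀ s) = 0 := by
      rw [← map_tm f B₀ B φ hφ, hs, map_nsmul, ht, nsmul_zero]
    have e2 := h3 _ (tm_mem B₀ s) e1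
    have e3 : ∀ v ∈ Submodule.span E {b | b ∈ B₀ ∧ f b = 0},
        ∃ s' : E ⊗[ℤ] B₀, tm E B₀ s' = v ∧ LinearMap.lTensor E φ s' = 0 := by
      intro v hv
      induction hv using Submodule.span_induction with
      | mem x hx =>
        refine ⟨(1 : E) ⊗ₜ ⟨x, hx.1⟩, by rw [tm_tmul, one_smul], ?_⟩
        rw [LinearMap.lTensor_tmul]
        have : φ ⟨x, hx.1⟩ = 0 := Subtype.ext hx.2
        rw [this, TensorProduct.tmul_zero]
      | zero => exact ⟨0, map_zero _, map_zero _⟩
      | add x y _ _ hx hy =>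
        obtain ⟨a, ha, ha'⟩ := hx
        obtain ⟨b, hb, hb'⟩ := hy
        exact ⟨a + b, by rw [map_add, ha, hb], by rw [map_add, ha', hb', add_zero]⟩
      | smul e x _ hx =>
        obtain ⟨a, ha, ha'⟩ := hx
        exact ⟨e • a, by rw [tm_smul, ha], by rw [lTensor_smul, ha', smul_zero]⟩
    obtain ⟨s', hs', hs''⟩ := e3 _ e2
    have e4 : s' = s := hI hs'
    rw [e4, hs] at hs''
    rw [← Nat.cast_smul_eq_nsmul E] at hs''
    exact (smul_eq_zero.1 hs'').resolve_left hnE

theorem rat_of_pairing {M₁ : Type*} [AddCommGroup M₁] [Module E M₁] [FiniteDimensional E M₁]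
    (P : M →ₗ[E] M₁ →ₗ[E] E) (B : AddSubgroup M) (B₁ : AddSubgroup M₁)
    (hint : ∀ b ∈ B, ∀ c ∈ B₁, ∃ m : ℤ, P b c = m)
    (hnd : ∀ v ∈ B, (∀ w ∈ Submodule.span E (B₁ : Set M₁), P v w = 0) → v = 0) : Rat E B := by
  classical
  obtain ⟨s, hs1, hs2⟩ := (Submodule.fg_span_iff_fg_span_finset_subset (R := E) (B₁ : Set M₁)).1
    (IsNoetherian.noetherian _)
  choose c hc using hint
  have hcast : Function.Injective (Int.cast : ℤ → E) := Int.cast_injective
  let ψ₀ : B →+ (s → ℤ) :=
    { toFun := fun b x => c b b.2 x (hs1 x.2)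
      map_zero' := by
        funext x
        apply hcast
        rw [← hc]
        simp
      map_add' := fun a b => by
        funext x
        apply hcast
        rw [Pi.add_apply, Int.cast_add, ← hc, ← hc, ← hc]
        simp }
  let ψ : B →ₗ[ℤ] (s → ℤ) := ψ₀.toIntLinearMap
  have hψ : ∀ (b : B) (x : s), ((ψ b x : ℤ) : E) = P b x := fun b x => (hc b b.2 x (hs1 x.2)).symm
  have hinj : Function.Injective ψ := by
    rw [injective_iff_map_eq_zero]
    intro b hb
    apply Subtype.ext
    refine hnd b b.2 ?_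
    intro w hw
    rw [hs2] at hw
    induction hw using Submodule.span_induction with
    | mem x hx =>
      rw [← hψ b ⟨x, hx⟩, hb]
      simp
    | zero => exact map_zero _
    | add x y _ _ hx hy => rw [map_add, hx, hy, add_zero]
    | smul e x _ hx => rw [map_smul, hx, smul_zero]
  refine ⟨Module.Finite.of_injective ψ hinj, ?_⟩
  rw [injective_iff_map_eq_zero]
  intro t ht
  have key : ∀ (t : E ⊗[ℤ] B) (x : s),
      TensorProduct.piScalarRight ℤ ℤ E s (LinearMap.lTensor E ψ t) x = P (tm E B t) x := by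
    intro t x
    induction t using TensorProduct.induction_on with
    | zero => simp
    | tmul e b =>
      rw [LinearMap.lTensor_tmul, tm_tmul, map_smul, LinearMap.smul_apply, ← hψ b x,
        TensorProduct.piScalarRight_apply, TensorProduct.piScalarRightHom_tmul]
      change (ψ b x) • e = e • ((ψ b x : ℤ) : E)
      rw [zsmul_eq_mul, smul_eq_mul, mul_comm]
    | add a b ha hb => rw [map_add, map_add, Pi.add_apply, ha, hb, map_add, map_add,
        LinearMap.add_apply]
  have h1 : TensorProduct.piScalarRight ℤ ℤ E s (LinearMap.lTensor E ψ t) = 0 := by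
    funext x
    rw [key, ht, map_zero]
    rfl
  have h2 : LinearMap.lTensor E ψ t = 0 := (LinearEquiv.map_eq_zero_iff _).1 h1
  have h3 := Module.Flat.lTensor_preserves_injective_linearMap (M := E) ψ hinj
  exact (injective_iff_map_eq_zero _).1 h3 t h2

omit [CharZero E] in
theorem rat_of_subsingleton [Subsingleton M] (B : AddSubgroup M) : Rat E B := by
  have : Subsingleton B := inferInstance
  refine ⟨inferInstance, ?_⟩
  rw [injective_iff_map_eq_zero]
  intro t _
  induction t using TensorProduct.induction_on with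
  | zero => rfl
  | tmul x y => rw [Subsingleton.elim y 0, TensorProduct.tmul_zero]
  | add x y hx hy => rw [hx (Subsingleton.elim _ _), hy (Subsingleton.elim _ _), add_zero]

/-- the rank of `B` is the dimension of its span -/
theorem finrank_of_rat (B : AddSubgroup M) (h : Rat E B) :
    Module.finrank ℤ B = Module.finrank E (Submodule.span E (B : Set M)) := by
  have := h.1
  have h0 : Module.IsTorsionFree ℤ B := by
    refine Module.IsTorsionFree.mk ?_
    intro r hr x y hxy
    have hr' : r ≠ 0 := by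
      rintro rfl
      exact not_isRegular_zero hr
    have hxy' : r • (x : M) = r • (y : M) := congrArg Subtype.val hxy
    have e : ((r : ℤ) : E) • ((x : M) - y) = 0 := by
      rw [smul_sub, Int.cast_smul_eq_zsmul, Int.cast_smul_eq_zsmul]
      exact sub_eq_zero.2 hxy'
    have hr'' : ((r : ℤ) : E) ≠ 0 := by exact_mod_cast hr'
    exact Subtype.ext (sub_eq_zero.1 ((smul_eq_zero.1 e).resolve_left hr''))
  have : Module.Free ℤ B := inferInstance
  let e : E ⊗[ℤ] B ≃ₗ[E] Submodule.span E (B : Set M) := by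
    refine LinearEquiv.ofBijective
      ({ toFun := fun t => ⟨tm E B t, tm_mem B t⟩
         map_add' := fun a b => Subtype.ext (map_add _ _ _)
         map_smul' := fun e t => Subtype.ext (tm_smul B e t) } : E ⊗[ℤ] B →ₗ[E] _) ⟨?_, ?_⟩
    · intro a b hab
      exact h.2 (congrArg Subtype.val hab)
    · rintro ⟨v, hv⟩
      obtain ⟨t, rfl⟩ := (mem_span_iff B v).1 hv
      exact ⟨t, rfl⟩
  rw [← e.finrank_eq, Module.finrank_baseChange]

end

end Pool.Agent.K9h37.TS
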