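import Pool.Agent.K9h37.TS.Alias
import Pool.Agent.K9h37.TS.Lin
import Pool.Agent.K9h37.TS.Tens

/-!
The formal part of the proof: from smooth projective varieties to all varieties.
-/

set_option autoImplicit false

open CategoryTheory CategoryTheory.Limits AlgebraicGeometry
open scoped TensorProduct

namespace Pool.Agent.K9h37.TS

namespace Homology

variable {k : Type} [Field k] {E : Type} [Field E] {Γ : Type} [Group Γ] (T : Homology k E Γ)

/-- the linear algebra data of a variety -/
def data (i : ℕ) (X : Sch k) (hX : IsVariety X) : Data E (T.H i X) Γ T.geo T.frob where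
  ρ := T.ρ i X
  W := T.W i X
  normal := T.normal
  stable := T.W_stable i X hX
  wt := T.weights i X hX
  ss := T.semisimple i X hX

/-- the span of the classes -/
def S (i : ℕ) (X : Sch k) : Submodule E (T.H i X) :=
  Submodule.span E {c | ∃ x, PtDim i X x ∧ T.cl i X x = c}

/-- the generalised invariants are spanned by classes -/
def Full (i : ℕ) (X : Sch k) : Prop :=
  ∀ (v : T.H i X) (n : ℕ), (∀ g ∈ T.geo, T.ρ i X g v = v) → ((T.ρ i X T.frob - 1) ^ n) v = 0 →
    v ∈ T.S i X

lemma cl_mem_S {i : ℕ} {X : Sch k} {x : X.left} (hx : PtDim i X x) : T.cl i X x ∈ T.S i X :=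
  Submodule.subset_span ⟨x, hx, rfl⟩

lemma cl_mem_B {i : ℕ} {X : Sch k} {x : X.left} (hx : PtDim i X x) : T.cl i X x ∈ T.B i X :=
  AddSubgroup.subset_closure ⟨x, hx, rfl⟩

lemma span_B (i : ℕ) (X : Sch k) : Submodule.span E (T.B i X : Set (T.H i X)) = T.S i X := by
  apply le_antisymm
  · refine Submodule.span_le.2 ?_
    intro b hb
    have h : T.B i X ≤ (T.S i X).toAddSubgroup :=
      (AddSubgroup.closure_le _).2 (fun c hc => Submodule.subset_span hc)
    exact h hb
  · exact Submodule.span_mono (fun c hc => AddSubgroup.subset_closure hc)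

lemma S_inv {i : ℕ} {X : Sch k} (hX : IsVariety X) (v : T.H i X) (hv : v ∈ T.S i X) (g : Γ) :
    T.ρ i X g v = v := by
  induction hv using Submodule.span_induction with
  | mem x hx =>
    obtain ⟨x, hx, rfl⟩ := hx
    exact T.cl_inv i X hX x hx g
  | zero => exact map_zero _
  | add x y _ _ hx hy => rw [map_add, hx, hy]
  | smul e x _ hx => rw [map_smul, hx]

lemma inv_mem_Gen {i : ℕ} {X : Sch k} (hX : IsVariety X) (v : T.H i X) (hv : ∀ g, T.ρ i X g v = v) :
    v ∈ (T.data i X hX).Gen := by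
  refine ⟨fun g _ => hv g, 1, ?_⟩
  rw [pow_one]
  change T.ρ i X T.frob v - v = 0
  rw [hv, sub_self]

lemma S_le_Gen {i : ℕ} {X : Sch k} (hX : IsVariety X) : T.S i X ≤ (T.data i X hX).Gen :=
  fun v hv => T.inv_mem_Gen hX v (T.S_inv hX v hv)

lemma S_le_W {i : ℕ} {X : Sch k} (hX : IsVariety X) : T.S i X ≤ T.W i X :=
  (T.S_le_Gen hX).trans (T.data i X hX).Gen_le_W

lemma full_iff {i : ℕ} {X : Sch k} (hX : IsVariety X) :
    T.Full i X ↔ (T.data i X hX).Gen ≤ T.S i X := by
  constructor
  · rintro h v ⟨h1, n, hn⟩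
    exact h v n h1 hn
  · intro h v n h1 hn
    exact h ⟨h1, n, hn⟩

section

variable {T}

/-- `Full` and `Rat` imply the conjectures -/
lemma partA_iff {i : ℕ} {X : Sch k} (hX : IsVariety X) :
    T.PartA i X ↔ ∀ v : T.H i X, (∀ g, T.ρ i X g v = v) → v ∈ T.S i X := by
  unfold HomologyData.PartA
  constructor
  · intro h v hv
    rw [← T.span_B]
    exact (h v).1 hv
  · intro h v
    rw [T.span_B]
    exact ⟨h v, fun hv g => T.S_inv hX v hv g⟩

lemma partA_of_full {i : ℕ} {X : Sch k} (hX : IsVariety X) (h : T.Full i X) : T.PartA i X := by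
  rw [partA_iff hX]
  intro v hv
  exact (T.full_iff hX).1 h (T.inv_mem_Gen hX v hv)

omit T in
lemma extMap_eq {M : Type} [AddCommGroup M] [Module E M] (B : AddSubgroup M) (t : E ⊗[ℤ] B) :
    extMap E B (show Ext E B from t) = tm E B t := by
  change B.subtype.toIntLinearMap.liftBaseChange E t = _
  induction t using TensorProduct.induction_on with
  | zero => rw [map_zero, map_zero]
  | tmul x y =>
    rw [tm_tmul]
    exact LinearMap.liftBaseChange_tmul _ _ _ _
  | add x y hx hy => rw [map_add, map_add, hx, hy]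

lemma partB_of_full {i : ℕ} {X : Sch k} (hX : IsVariety X) (h : T.Full i X)
    (hR : Rat E (T.B i X)) : T.PartB i X := by
  refine ⟨?_, ?_, ?_⟩
  · have h1 := hR.1
    exact (AddGroup.fg_iff_addSubgroup_fg _).1
      ((Module.Finite.iff_addGroup_fg).1 h1)
  · intro a b hab
    have h1 := extMap_eq (E := E) (T.B i X) a
    have h2 := extMap_eq (E := E) (T.B i X) b
    exact hR.2 (h1.symm.trans (hab.trans h2))
  · intro v
    rw [partA_of_full hX h v, mem_span_iff]
    constructor
    · rintro ⟨t, ht⟩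
      exact ⟨t, (extMap_eq _ t).trans ht⟩
    · rintro ⟨t, ht⟩
      exact ⟨t, (extMap_eq _ t).symm.trans ht⟩

lemma poleOrder_of_full [CharZero E] {i : ℕ} {X : Sch k} (hX : IsVariety X) (h : T.Full i X)
    (hR : Rat E (T.B i X)) : T.PoleOrder i X := by
  unfold HomologyData.PoleOrder
  rw [finrank_of_rat _ hR, T.span_B]
  refine T.ordL_eq i X hX _ (fun v => ?_)
  constructor
  · intro hv
    exact T.S_le_Gen hX hv
  · rintro ⟨h1, n, hn⟩
    exact h v n h1 hn

/-! ### morphisms -/

lemma isMor_push {X Y : Sch k} (f : X ⟶ Y) (i : ℕ) (hX : IsVariety X) (hY : IsVariety Y)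
    (hf : IsProper f.left) : Data.IsMor (T.data i X hX) (T.data i Y hY) (T.push f i) :=
  ⟨T.push_ρ f i hX hY hf, T.push_W f i hX hY hf⟩

lemma isMor_res {U X : Sch k} (j : U ⟶ X) (i : ℕ) (hU : IsVariety U) (hX : IsVariety X)
    (hj : IsOpenImmersion j.left) : Data.IsMor (T.data i X hX) (T.data i U hU) (T.res j i) :=
  ⟨T.res_ρ j i hU hX hj, T.res_W j i hU hX hj⟩

lemma push_cl_mem_B {X Y : Sch k} (f : X ⟶ Y) (i : ℕ) (hX : IsVariety X) (hY : IsVariety Y)
    (hf : IsProper f.left) {x : X.left} (hx : PtDim i X x) :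
    T.push f i (T.cl i X x) ∈ T.B i Y := by
  rcases T.cl_push f i hX hY hf x hx with ⟨h1, n, _, h2⟩ | ⟨_, h2⟩
  · rw [h2]
    exact (T.B i Y).nsmul_mem (T.cl_mem_B h1) n
  · rw [h2]
    exact (T.B i Y).zero_mem

lemma push_B {X Y : Sch k} (f : X ⟶ Y) (i : ℕ) (hX : IsVariety X) (hY : IsVariety Y)
    (hf : IsProper f.left) (b : T.H i X) (hb : b ∈ T.B i X) : T.push f i b ∈ T.B i Y := by
  induction hb using AddSubgroup.closure_induction with
  | mem c hc =>
    obtain ⟨x, hx, rfl⟩ := hc
    exact T.push_cl_mem_B f i hX hY hf hx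
  | zero => rw [map_zero]; exact (T.B i Y).zero_mem
  | add a b _ _ ha hb => rw [map_add]; exact (T.B i Y).add_mem ha hb
  | neg a _ ha => rw [map_neg]; exact (T.B i Y).neg_mem ha

lemma B_le_S {i : ℕ} {X : Sch k} (b : T.H i X) (hb : b ∈ T.B i X) : b ∈ T.S i X := by
  rw [← T.span_B]
  exact Submodule.subset_span hb

lemma push_S {X Y : Sch k} (f : X ⟶ Y) (i : ℕ) (hX : IsVariety X) (hY : IsVariety Y)
    (hf : IsProper f.left) (b : T.H i X) (hb : b ∈ T.S i X) : T.push f i b ∈ T.S i Y := by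
  induction hb using Submodule.span_induction with
  | mem c hc =>
    obtain ⟨x, hx, rfl⟩ := hc
    exact B_le_S _ (T.push_cl_mem_B f i hX hY hf hx)
  | zero => rw [map_zero]; exact (T.S i Y).zero_mem
  | add a b _ _ ha hb => rw [map_add]; exact (T.S i Y).add_mem ha hb
  | smul e a _ ha => rw [map_smul]; exact (T.S i Y).smul_mem e ha

lemma res_cl_mem {U X : Sch k} (j : U ⟶ X) (i : ℕ) (hU : IsVariety U) (hX : IsVariety X)
    (hj : IsOpenImmersion j.left) {x : X.left} (hx : PtDim i X x) :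
    T.res j i (T.cl i X x) ∈ T.B i U := by
  by_cases h : x ∈ Set.range j.left
  · obtain ⟨u, rfl⟩ := h
    have hu : PtDim i U u := (T.dim_open j hU hX hj i u).2 hx
    rw [T.cl_res j i hU hX hj u hu]
    exact T.cl_mem_B hu
  · rw [T.cl_res_zero j i hU hX hj x hx h]
    exact (T.B i U).zero_mem

lemma res_B {U X : Sch k} (j : U ⟶ X) (i : ℕ) (hU : IsVariety U) (hX : IsVariety X)
    (hj : IsOpenImmersion j.left) (b : T.H i X) (hb : b ∈ T.B i X) : T.res j i b ∈ T.B i U := by
  induction hb using AddSubgroup.closure_induction with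
  | mem c hc =>
    obtain ⟨x, hx, rfl⟩ := hc
    exact T.res_cl_mem j i hU hX hj hx
  | zero => rw [map_zero]; exact (T.B i U).zero_mem
  | add a b _ _ ha hb => rw [map_add]; exact (T.B i U).add_mem ha hb
  | neg a _ ha => rw [map_neg]; exact (T.B i U).neg_mem ha

lemma res_S {U X : Sch k} (j : U ⟶ X) (i : ℕ) (hU : IsVariety U) (hX : IsVariety X)
    (hj : IsOpenImmersion j.left) (b : T.H i X) (hb : b ∈ T.S i X) : T.res j i b ∈ T.S i U := by
  induction hb using Submodule.span_induction with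
  | mem c hc =>
    obtain ⟨x, hx, rfl⟩ := hc
    exact B_le_S _ (T.res_cl_mem j i hU hX hj hx)
  | zero => rw [map_zero]; exact (T.S i U).zero_mem
  | add a b _ _ ha hb => rw [map_add]; exact (T.S i U).add_mem ha hb
  | smul e a _ ha => rw [map_smul]; exact (T.S i U).smul_mem e ha

/-- every class on an open subscheme is the restriction of a class -/
lemma exists_res_B {U X : Sch k} (j : U ⟶ X) (i : ℕ) (hU : IsVariety U) (hX : IsVariety X)
    (hj : IsOpenImmersion j.left) (b : T.H i U) (hb : b ∈ T.B i U) :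
    ∃ a ∈ T.B i X, T.res j i a = b := by
  induction hb using AddSubgroup.closure_induction with
  | mem c hc =>
    obtain ⟨u, hu, rfl⟩ := hc
    exact ⟨T.cl i X (j.left u), T.cl_mem_B ((T.dim_open j hU hX hj i u).1 hu),
      T.cl_res j i hU hX hj u hu⟩
  | zero => exact ⟨0, (T.B i X).zero_mem, map_zero _⟩
  | add a b _ _ ha hb =>
    obtain ⟨a', ha', ea⟩ := ha
    obtain ⟨b', hb', eb⟩ := hb
    exact ⟨a' + b', (T.B i X).add_mem ha' hb', by rw [map_add, ea, eb]⟩
  | neg a _ ha =>
    obtain ⟨a', ha', ea⟩ := ha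
    exact ⟨-a', (T.B i X).neg_mem ha', by rw [map_neg, ea]⟩

lemma exists_res_S {U X : Sch k} (j : U ⟶ X) (i : ℕ) (hU : IsVariety U) (hX : IsVariety X)
    (hj : IsOpenImmersion j.left) (b : T.H i U) (hb : b ∈ T.S i U) :
    ∃ a ∈ T.S i X, T.res j i a = b := by
  induction hb using Submodule.span_induction with
  | mem c hc =>
    obtain ⟨u, hu, rfl⟩ := hc
    exact ⟨T.cl i X (j.left u), T.cl_mem_S ((T.dim_open j hU hX hj i u).1 hu),
      T.cl_res j i hU hX hj u hu⟩
  | zero => exact ⟨0, (T.S i X).zero_mem, map_zero _⟩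
  | add a b _ _ ha hb =>
    obtain ⟨a', ha', ea⟩ := ha
    obtain ⟨b', hb', eb⟩ := hb
    exact ⟨a' + b', (T.S i X).add_mem ha' hb', by rw [map_add, ea, eb]⟩
  | smul e a _ ha =>
    obtain ⟨a', ha', ea⟩ := ha
    exact ⟨e • a', (T.S i X).smul_mem e ha', by rw [map_smul, ea]⟩

/-! ### open subvarieties -/

/-- from a variety `X` and a closed subvariety `Z` to the complement `U` -/
theorem full_open {Z U X : Sch k} (j : U ⟶ X) (i : ℕ)
    (hZ : IsVariety Z) (hU : IsVariety U) (hX : IsVariety X) (ι : Z ⟶ X)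
    (hι : IsClosedImmersion ι.left) (hj : IsOpenImmersion j.left)
    (hr : Set.range ι.left = (Set.range j.left)ᶜ) (hf : T.Full i X) : T.Full i U := by
  have := T.finite i X hX
  have := T.finite i U hU
  rw [T.full_iff hU]
  intro v hv
  obtain ⟨w, hw, rfl⟩ := (isMor_res j i hU hX hj).surj
    (T.localization ι j i hZ hU hX hι hj hr).1 v hv
  exact res_S j i hU hX hj w ((T.full_iff hX).1 hf hw)

theorem rat_open [CharZero E] {Z U X : Sch k} (j : U ⟶ X) (i : ℕ)
    (hZ : IsVariety Z) (hU : IsVariety U) (hX : IsVariety X) (ι : Z ⟶ X)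
    (hι : IsClosedImmersion ι.left) (hj : IsOpenImmersion j.left)
    (hr : Set.range ι.left = (Set.range j.left)ᶜ) (hfZ : T.Full i Z)
    (hR : Rat E (T.B i X)) : Rat E (T.B i U) := by
  have := T.finite i X hX
  have := T.finite i Z hZ
  have hloc := (T.localization ι j i hZ hU hX hι hj hr).2
  have hp : IsProper ι.left := inferInstance
  refine rat_of_coker (T.res j i) (T.B i X) (T.B i U) (res_B j i hU hX hj) 1 one_pos ?_ ?_ hR
  · intro b hb
    rw [one_nsmul]
    exact exists_res_B j i hU hX hj b hb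
  · intro w hw h0
    rw [T.span_B] at hw
    obtain ⟨z, hz, rfl⟩ := (isMor_push ι i hZ hX hp).lift w (T.S_le_Gen hX hw)
      ((hloc w (T.S_le_W hX hw)).1 h0)
    have hz' : z ∈ T.S i Z := (T.full_iff hZ).1 hfZ hz
    clear h0 hw hz
    induction hz' using Submodule.span_induction with
    | mem c hc =>
      obtain ⟨x, hx, rfl⟩ := hc
      have h1 := push_cl_mem_B (T := T) ι i hZ hX hp hx
      refine Submodule.subset_span ⟨h1, ?_⟩
      exact (hloc _ (T.S_le_W hX (B_le_S _ h1))).2 ⟨_, T.S_le_W hZ (T.cl_mem_S hx), rfl⟩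
    | zero => rw [map_zero]; exact Submodule.zero_mem _
    | add a b _ _ ha hb => rw [map_add]; exact Submodule.add_mem _ ha hb
    | smul e a _ ha => rw [map_smul]; exact Submodule.smul_mem _ e ha

/-! ### proper varieties -/

theorem full_proper {X X₀ X₁ : Sch k} (π : X₀ ⟶ X) (a b : X₁ ⟶ X₀)
    (h : a.left ≫ π.left = b.left ≫ π.left) (i : ℕ) (hX : IsVariety X) (hX₀ : IsVariety X₀)
    (hX₁ : IsVariety X₁) (hπ : IsProper π.left) (hs : Surjective π.left)
    (hp : IsProper (pullback.lift a.left b.left h))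
    (hs' : Surjective (pullback.lift a.left b.left h)) (hf : T.Full i X₀) : T.Full i X := by
  have := T.finite i X hX
  have := T.finite i X₀ hX₀
  rw [T.full_iff hX]
  intro v hv
  obtain ⟨w, hw, rfl⟩ := (isMor_push π i hX₀ hX hπ).surj
    (T.descent π a b h i hX hX₀ hX₁ hπ hs hp hs').1 v hv
  exact push_S π i hX₀ hX hπ w ((T.full_iff hX₀).1 hf hw)

theorem rat_proper [CharZero E] {X X₀ X₁ : Sch k} (π : X₀ ⟶ X) (a b : X₁ ⟶ X₀)
    (h : a.left ≫ π.left = b.left ≫ π.left) (i : ℕ) (hX : IsVariety X) (hX₀ : IsVariety X₀)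
    (hX₁ : IsVariety X₁) (hπ : IsProper π.left) (hs : Surjective π.left)
    (ha : IsProper a.left) (hb : IsProper b.left)
    (hp : IsProper (pullback.lift a.left b.left h))
    (hs' : Surjective (pullback.lift a.left b.left h)) (hf : T.Full i X₁)
    (hR : Rat E (T.B i X₀)) : Rat E (T.B i X) := by
  have := T.finite i X₀ hX₀
  have := T.finite i X₁ hX₁
  have hdes := (T.descent π a b h i hX hX₀ hX₁ hπ hs hp hs').2
  obtain ⟨n, hn, hm⟩ := T.multisections π i hX hX₀ hπ hs
  refine rat_of_coker (T.push π i) (T.B i X₀) (T.B i X) (push_B π i hX₀ hX hπ) n hn ?_ ?_ hR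
  · intro c hc
    induction hc using AddSubgroup.closure_induction with
    | mem c hc =>
      obtain ⟨x, hx, rfl⟩ := hc
      exact hm x hx
    | zero => exact ⟨0, (T.B i X₀).zero_mem, by rw [map_zero, nsmul_zero]⟩
    | add c d _ _ hc hd =>
      obtain ⟨c', hc', ec⟩ := hc
      obtain ⟨d', hd', ed⟩ := hd
      exact ⟨c' + d', (T.B i X₀).add_mem hc' hd', by rw [map_add, ec, ed, nsmul_add]⟩
    | neg c _ hc =>
      obtain ⟨c', hc', ec⟩ := hc
      exact ⟨-c', (T.B i X₀).neg_mem hc', by rw [map_neg, ec, smul_neg]⟩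
  · intro w hw h0
    rw [T.span_B] at hw
    obtain ⟨z, hz, rfl⟩ := ((isMor_push a i hX₁ hX₀ ha).sub (isMor_push b i hX₁ hX₀ hb)).lift w
      (T.S_le_Gen hX₀ hw) ((hdes w (T.S_le_W hX₀ hw)).1 h0)
    have hz' : z ∈ T.S i X₁ := (T.full_iff hX₁).1 hf hz
    clear h0 hw hz
    induction hz' using Submodule.span_induction with
    | mem c hc =>
      obtain ⟨x, hx, rfl⟩ := hc
      have h1 : T.push a i (T.cl i X₁ x) - T.push b i (T.cl i X₁ x) ∈ T.B i X₀ :=
        (T.B i X₀).sub_mem (push_cl_mem_B a i hX₁ hX₀ ha hx) (push_cl_mem_B b i hX₁ hX₀ hb hx)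
      refine Submodule.subset_span ⟨h1, ?_⟩
      exact (hdes _ (T.S_le_W hX₀ (B_le_S _ h1))).2 ⟨_, T.S_le_W hX₁ (T.cl_mem_S hx), rfl⟩
    | zero => rw [map_zero]; exact Submodule.zero_mem _
    | add a b _ _ ha hb => rw [map_add]; exact Submodule.add_mem _ ha hb
    | smul e a _ ha => rw [map_smul]; exact Submodule.smul_mem _ e ha

/-! ### smooth projective varieties: numerical equivalence -/

/-- an invariant class which is orthogonal to the cycles is zero -/
theorem perp {d i : ℕ} {X : Sch k} (hX : IsVariety X) (hd : IsSmoothProjective d X) (hid : i ≤ d)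
    (hf : T.Full (d - i) X) (v : T.H i X) (hvi : ∀ g, T.ρ i X g v = v)
    (h0 : ∀ w ∈ T.S (d - i) X, T.pairing d i X v w = 0) : v = 0 := by
  have := T.finite (d - i) X hX
  refine T.pairing_nondeg d i X hd hid v (fun w => ?_)
  have hw : w ∈ (T.data (d - i) X hX).W := by
    change w ∈ T.W (d - i) X
    rw [T.pure d (d - i) X hd]; trivial
  have hinv : ∀ (g : Γ) (u : T.H (d - i) X),
      T.pairing d i X v (T.ρ (d - i) X g u - u) = 0 := by
    intro g u
    have h1 := T.pairing_inv d i X hd hid g v u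
    rw [hvi g] at h1
    rw [map_sub, h1, sub_self]
  obtain ⟨g, hg, c, hc, rfl⟩ := (T.data (d - i) X hX).cover w hw
  rw [map_add, h0 g ((T.full_iff hX).1 hf hg), zero_add]
  obtain ⟨a, ha, b, hb, rfl⟩ := Submodule.mem_sup.1 hc
  rw [map_add]
  clear hw hc
  have h1 : T.pairing d i X v a = 0 := by
    clear hb
    induction ha using Submodule.span_induction with
    | mem x hx =>
      obtain ⟨g, _, u, _, rfl⟩ := hx
      exact hinv g u
    | zero => exact map_zero _
    | add a b _ _ ha hb => rw [map_add, ha, hb, add_zero]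
    | smul e a _ ha => rw [map_smul, ha, smul_zero]
  have h2 : T.pairing d i X v b = 0 := by
    obtain ⟨s, _, hs⟩ := hb.2 1
    rw [pow_one] at hs
    rw [← hs]
    exact hinv T.frob s
  rw [h1, h2, add_zero]

theorem rat_smooth [CharZero E] {d i : ℕ} {X : Sch k} (hX : IsVariety X)
    (hd : IsSmoothProjective d X) (hf : T.Full (d - i) X) : Rat E (T.B i X) := by
  by_cases hid : i ≤ d
  swap
  · have := T.zero_above d i X hd (not_le.1 hid)
    exact rat_of_subsingleton _
  have := T.finite (d - i) X hX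
  refine rat_of_pairing (T.pairing d i X) (T.B i X) (T.B (d - i) X) ?_ ?_
  · -- the intersection numbers are integers
    intro b hb c hc
    induction hb using AddSubgroup.closure_induction with
    | mem b hb =>
      obtain ⟨x, hx, rfl⟩ := hb
      induction hc using AddSubgroup.closure_induction with
      | mem c hc =>
        obtain ⟨y, hy, rfl⟩ := hc
        exact T.pairing_int d i X hd hid x y hx hy
      | zero => exact ⟨0, by simp⟩
      | add a b _ _ ha hb =>
        obtain ⟨m, em⟩ := ha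
        obtain ⟨n, en⟩ := hb
        exact ⟨m + n, by rw [map_add, em, en]; push_cast; rfl⟩
      | neg a _ ha =>
        obtain ⟨m, em⟩ := ha
        exact ⟨-m, by rw [map_neg, em]; push_cast; rfl⟩
    | zero => exact ⟨0, by simp⟩
    | add a b _ _ ha hb =>
      obtain ⟨m, em⟩ := ha
      obtain ⟨n, en⟩ := hb
      exact ⟨m + n, by rw [map_add, LinearMap.add_apply, em, en]; push_cast; rfl⟩
    | neg a _ ha =>
      obtain ⟨m, em⟩ := ha
      exact ⟨-m, by rw [map_neg, LinearMap.neg_apply, em]; push_cast; rfl⟩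
  · intro v hv h0
    rw [T.span_B] at h0
    exact perp hX hd hid hf v (T.S_inv hX v (B_le_S _ hv)) h0

/-- hard Lefschetz: from the dimension `d - i` to the dimension `i` -/
theorem full_lefschetz {d i : ℕ} {X : Sch k} (hX : IsVariety X) (hd : IsSmoothProjective d X)
    (hi : 2 * i ≤ d) (hf : T.Full (d - i) X) : T.Full i X := by
  have := T.finite i X hX
  have := T.finite (d - i) X hX
  obtain ⟨L, hL1, hL2, hL3⟩ := T.lefschetz d i X hd hi
  have hm : Data.IsMor (T.data (d - i) X hX) (T.data i X hX) L :=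
    ⟨hL2, fun v _ => by
      change L v ∈ T.W i X
      rw [T.pure d i X hd]; trivial⟩
  rw [T.full_iff hX]
  intro v hv
  obtain ⟨w, hw, rfl⟩ := hm.lift v hv (by
    obtain ⟨w, hw⟩ := hL1 v
    refine ⟨w, ?_, hw⟩
    change w ∈ T.W (d - i) X
    rw [T.pure d (d - i) X hd]; trivial)
  have hw' : w ∈ T.S (d - i) X := (T.full_iff hX).1 hf hw
  clear hw hv
  induction hw' using Submodule.span_induction with
  | mem c hc =>
    obtain ⟨x, hx, rfl⟩ := hc
    exact B_le_S _ (hL3 x hx)
  | zero => rw [map_zero]; exact Submodule.zero_mem _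
  | add a b _ _ ha hb => rw [map_add]; exact Submodule.add_mem _ ha hb
  | smul e a _ ha => rw [map_smul]; exact Submodule.smul_mem _ e ha

end

end Homology

end Pool.Agent.K9h37.TS
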